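import Mathlib

set_option autoImplicit false

open scoped Pointwise

namespace Pool.Agent.Helper81.Hopf

/-- The Foelner property: for every finite set `S` and every `ε > 0` there is a nonempty finite set `E`
such that for all `s ∈ S`, all but at most `ε |E|` of the elements `x ∈ E` satisfy `s x ∈ E`. -/
def Folner (Q : Type*) [Group Q] : Prop :=
  ∀ (S : Finset Q) (ε : ℝ), 0 < ε → ∃ E : Finset Q, E.Nonempty ∧
    ∀ s ∈ S, ∃ B : Finset Q, (B.card : ℝ) ≤ ε * E.card ∧ ∀ x ∈ E, s * x ∈ E ∨ x ∈ B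

/-- Every commutative group has the Foelner property. -/
theorem folner_of_comm {Q : Type*} [Group Q] (hc : ∀ x y : Q, x * y = y * x) : Folner Q := by
  classical
  intro S ε hε
  let _ : CommGroup Q := { ‹Group Q› with mul_comm := hc }
  -- the box sets
  let box : ℕ → Finset Q := fun m =>
    (Fintype.piFinset (fun _ : S => Finset.range m)).image (fun a : S → ℕ => ∏ s : S, (s : Q) ^ (a s))
  have hbox_mem : ∀ m x, x ∈ box m ↔ ∃ a : S → ℕ, (∀ s, a s < m) ∧ ∏ s : S, (s : Q) ^ (a s) = x := by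
    intro m x
    simp only [box, Finset.mem_image, Fintype.mem_piFinset, Finset.mem_range]
  have hmono : ∀ m, box m ⊆ box (m + 1) := by
    intro m x hx
    rw [hbox_mem] at hx ⊢
    obtain ⟨a, ha, rfl⟩ := hx
    exact ⟨a, fun s => Nat.lt_succ_of_lt (ha s), rfl⟩
  have hstep : ∀ m, ∀ s ∈ S, ∀ x ∈ box m, s * x ∈ box (m + 1) := by
    intro m s hs x hx
    rw [hbox_mem] at hx ⊢
    obtain ⟨a, ha, rfl⟩ := hx
    refine ⟨Function.update a ⟨s, hs⟩ (a ⟨s, hs⟩ + 1), ?_, ?_⟩
    · intro t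
      by_cases ht : t = ⟨s, hs⟩
      · subst ht; simp only [Function.update_self]; exact Nat.succ_lt_succ (ha _)
      · rw [Function.update_of_ne ht]; exact Nat.lt_succ_of_lt (ha t)
    · have : ∀ t : S, (t : Q) ^ (Function.update a ⟨s, hs⟩ (a ⟨s, hs⟩ + 1) t)
          = (t : Q) ^ (a t) * (if t = ⟨s, hs⟩ then (s : Q) else 1) := by
        intro t
        by_cases ht : t = ⟨s, hs⟩
        · subst ht; simp only [Function.update_self, if_true, pow_succ]
        · rw [Function.update_of_ne ht, if_neg ht, mul_one]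
      rw [Finset.prod_congr rfl (fun t _ => this t), Finset.prod_mul_distrib]
      simp only [Finset.prod_ite_eq', Finset.mem_univ, if_true]
      rw [mul_comm]
  have hne : ∀ m, (box (m + 1)).Nonempty := by
    intro m
    refine ⟨1, ?_⟩
    rw [hbox_mem]
    exact ⟨fun _ => 0, fun _ => Nat.succ_pos m, by simp⟩
  have hcard : ∀ m, (box m).card ≤ m ^ S.card := by
    intro m
    refine Finset.card_image_le.trans ?_
    rw [Fintype.card_piFinset]
    simp
  -- some step has small growth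
  by_contra hcon
  have hcon' : ∀ E : Finset Q, E.Nonempty → ∃ s ∈ S,
      ε * (E.card : ℝ) < ((E.filter (fun x => s * x ∉ E)).card : ℝ) := by
    intro E hE
    by_contra hno
    apply hcon
    refine ⟨E, hE, fun s hs => ⟨E.filter (fun x => s * x ∉ E), ?_, ?_⟩⟩
    · by_contra hlt
      exact hno ⟨s, hs, not_le.1 hlt⟩
    · intro x hx
      by_cases hsx : s * x ∈ E
      · exact Or.inl hsx
      · exact Or.inr (Finset.mem_filter.2 ⟨hx, hsx⟩)
  have hgrow : ∀ m : ℕ, (1 + ε) * ((box (m + 1)).card : ℝ) < (box (m + 2)).card := by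
    intro m
    obtain ⟨s, hs, hlt⟩ := hcon' (box (m + 1)) (hne m)
    have h1 : (box (m + 1)) ∪ ((box (m+1)).filter (fun x => s * x ∉ box (m+1))).image (fun x => s * x)
        ⊆ box (m + 2) := by
      intro y hy
      rcases Finset.mem_union.1 hy with hy | hy
      · exact hmono _ hy
      · obtain ⟨x, hx, rfl⟩ := Finset.mem_image.1 hy
        exact hstep _ s hs x (Finset.mem_filter.1 hx).1
    have h2 : Disjoint (box (m + 1))
        (((box (m+1)).filter (fun x => s * x ∉ box (m+1))).image (fun x => s * x)) := by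
      rw [Finset.disjoint_left]
      intro y hy hy'
      obtain ⟨x, hx, rfl⟩ := Finset.mem_image.1 hy'
      exact (Finset.mem_filter.1 hx).2 hy
    have h3 := Finset.card_le_card h1
    rw [Finset.card_union_of_disjoint h2,
      Finset.card_image_of_injective _ (mul_right_injective s)] at h3
    have h4 : (((box (m+1)).card : ℝ) + (((box (m+1)).filter (fun x => s * x ∉ box (m+1))).card : ℝ))
        ≤ (box (m + 2)).card := by exact_mod_cast h3
    nlinarith
  have hexp : ∀ m : ℕ, (1 + ε) ^ m ≤ ((box (m + 1)).card : ℝ) := by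
    intro m
    induction m with
    | zero =>
      have := Finset.card_pos.2 (hne 0)
      simp only [pow_zero]
      exact_mod_cast this
    | succ m ih =>
      have := hgrow m
      calc (1 + ε) ^ (m + 1) = (1 + ε) * (1 + ε) ^ m := by ring
        _ ≤ (1 + ε) * ((box (m + 1)).card : ℝ) := by
            apply mul_le_mul_of_nonneg_left ih; linarith
        _ ≤ _ := this.le
  have hpoly : ∀ m : ℕ, (1 + ε) ^ m ≤ ((m + 1 : ℕ) : ℝ) ^ S.card := by
    intro m
    refine (hexp m).trans ?_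
    exact_mod_cast hcard (m + 1)
  have hlim : Filter.Tendsto (fun m : ℕ => ((m : ℝ)) ^ S.card / (1 + ε) ^ m) Filter.atTop (nhds 0) :=
    tendsto_pow_const_div_const_pow_of_one_lt _ (by linarith)
  have hev := (hlim.eventually (gt_mem_nhds (show (0:ℝ) < 1 / (1 + ε) by positivity))).exists_forall_of_atTop
  obtain ⟨N, hN⟩ := hev
  have h5 := hN (N + 1) (Nat.le_succ N)
  have h6 := hpoly N
  have hpos : (0:ℝ) < (1 + ε) ^ (N + 1) := by positivity
  rw [div_lt_div_iff₀ hpos (by linarith)] at h5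
  have h7 : ((N + 1 : ℕ) : ℝ) ^ S.card * (1 + ε) ≥ (1 + ε) ^ N * (1 + ε) :=
    mul_le_mul_of_nonneg_right h6 (by linarith)
  rw [← pow_succ] at h7
  linarith

/-- The Foelner property is closed under extensions. -/
theorem folner_of_extension {Q : Type*} [Group Q] (N : Subgroup Q) [N.Normal]
    (hN : Folner N) (hQ : Folner (Q ⧸ N)) : Folner Q := by
  classical
  intro S ε hε
  obtain ⟨E₂, hE₂, hb₂⟩ := hQ (S.image (fun s : Q => (QuotientGroup.mk s : Q ⧸ N))) (ε / 2) (by linarith)
  let σ : Q ⧸ N → Q := fun x => x.out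
  have hσ : ∀ x : Q ⧸ N, ((σ x : Q) : Q ⧸ N) = x := fun x => Quotient.out_eq' x
  have hn : ∀ (s : Q) (x : Q ⧸ N), (σ ((s : Q ⧸ N) * x))⁻¹ * (s * σ x) ∈ N := by
    intro s x
    rw [← QuotientGroup.eq_one_iff]
    simp only [QuotientGroup.mk_mul, QuotientGroup.mk_inv, hσ]
    simp
  let n : Q → Q ⧸ N → N := fun s x => ⟨(σ ((s : Q ⧸ N) * x))⁻¹ * (s * σ x), hn s x⟩
  have hnval : ∀ (s : Q) (x : Q ⧸ N), s * σ x = σ ((s : Q ⧸ N) * x) * (n s x : Q) := by
    intro s x; simp only [n]; group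
  obtain ⟨E₁, hE₁, hb₁⟩ := hN ((S ×ˢ E₂).image (fun p => n p.1 p.2)) (ε / 2) (by linarith)
  let mulσ : (Q ⧸ N) × N → Q := fun p => σ p.1 * (p.2 : Q)
  have hinj : Function.Injective mulσ := by
    rintro ⟨x, m⟩ ⟨x', m'⟩ h
    simp only [mulσ] at h
    have h1 : x = x' := by
      have := congrArg (fun q : Q => (q : Q ⧸ N)) h
      simp only [QuotientGroup.mk_mul, hσ, (QuotientGroup.eq_one_iff (m : Q)).2 m.2,
        (QuotientGroup.eq_one_iff (m' : Q)).2 m'.2, mul_one] at this
      exact this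
    subst h1
    have h2 : (m : Q) = m' := mul_left_cancel h
    rw [Subtype.ext h2]
  choose! B₂ hB₂ hB₂' using hb₂
  choose! B₁ hB₁ hB₁' using hb₁
  refine ⟨(E₂ ×ˢ E₁).image mulσ, (hE₂.product hE₁).image _, ?_⟩
  intro s hs
  have hcardE : (((E₂ ×ˢ E₁).image mulσ).card : ℝ) = E₂.card * E₁.card := by
    rw [Finset.card_image_of_injective _ hinj, Finset.card_product]; push_cast; ring
  refine ⟨((B₂ (s : Q ⧸ N)) ×ˢ E₁).image mulσ ∪
      E₂.biUnion (fun x => (B₁ (n s x)).image (fun m => mulσ (x, m))), ?_, ?_⟩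
  · have h1 : (((B₂ (s : Q ⧸ N)) ×ˢ E₁).image mulσ).card ≤ (B₂ (s : Q ⧸ N)).card * E₁.card := by
      refine Finset.card_image_le.trans ?_
      rw [Finset.card_product]
    have h2 : (E₂.biUnion (fun x => (B₁ (n s x)).image (fun m => mulσ (x, m)))).card
        ≤ ∑ x ∈ E₂, (B₁ (n s x)).card := by
      refine Finset.card_biUnion_le.trans ?_
      exact Finset.sum_le_sum (fun x _ => Finset.card_image_le)
    have h3 : ((∑ x ∈ E₂, (B₁ (n s x)).card : ℕ) : ℝ) ≤ E₂.card * (ε / 2 * E₁.card) := by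
      push_cast
      calc ∑ x ∈ E₂, ((B₁ (n s x)).card : ℝ) ≤ ∑ x ∈ E₂, ε / 2 * (E₁.card : ℝ) := by
            apply Finset.sum_le_sum
            intro x hx
            exact hB₁ _ (Finset.mem_image.2 ⟨(s, x), Finset.mem_product.2 ⟨hs, hx⟩, rfl⟩)
        _ = _ := by rw [Finset.sum_const, nsmul_eq_mul]
    have h4 : ((B₂ (s : Q ⧸ N)).card : ℝ) ≤ ε / 2 * E₂.card :=
      hB₂ _ (Finset.mem_image.2 ⟨s, hs, rfl⟩)
    have h5 := Finset.card_union_le (((B₂ (s : Q ⧸ N)) ×ˢ E₁).image mulσ)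
      (E₂.biUnion (fun x => (B₁ (n s x)).image (fun m => mulσ (x, m))))
    have h6 : ((((B₂ (s : Q ⧸ N)) ×ˢ E₁).image mulσ ∪
      E₂.biUnion (fun x => (B₁ (n s x)).image (fun m => mulσ (x, m)))).card : ℝ) ≤
        (B₂ (s : Q ⧸ N)).card * E₁.card + E₂.card * (ε / 2 * E₁.card) := by
      refine le_trans ?_ (add_le_add_right h3 _)
      exact_mod_cast h5.trans (Nat.add_le_add h1 h2)
    rw [hcardE]
    have h7 : ((B₂ (s : Q ⧸ N)).card : ℝ) * E₁.card ≤ ε / 2 * E₂.card * E₁.card :=
      mul_le_mul_of_nonneg_right h4 (Nat.cast_nonneg _)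
    nlinarith
  · intro y hy
    obtain ⟨⟨x, m⟩, hxm, rfl⟩ := Finset.mem_image.1 hy
    obtain ⟨hx, hm⟩ := Finset.mem_product.1 hxm
    simp only at hx hm
    have hkey : s * mulσ (x, m) = mulσ ((s : Q ⧸ N) * x, n s x * m) := by
      simp only [mulσ, Subgroup.coe_mul]
      rw [← mul_assoc, hnval, mul_assoc]
    rcases hB₂' _ (Finset.mem_image.2 ⟨s, hs, rfl⟩) x hx with h | h
    · rcases hB₁' _ (Finset.mem_image.2 ⟨(s, x), Finset.mem_product.2 ⟨hs, hx⟩, rfl⟩) m hm with h' | h'
      · left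
        rw [hkey]
        exact Finset.mem_image.2 ⟨_, Finset.mem_product.2 ⟨h, h'⟩, rfl⟩
      · right
        exact Finset.mem_union_right _ (Finset.mem_biUnion.2 ⟨x, hx, Finset.mem_image.2 ⟨m, h', rfl⟩⟩)
    · right
      exact Finset.mem_union_left _ (Finset.mem_image.2 ⟨(x, m), Finset.mem_product.2 ⟨h, hm⟩, rfl⟩)

/-- Metabelian groups have the Foelner property. -/
theorem folner_of_metabelian {Q : Type*} [Group Q]
    (h : ∀ x ∈ commutator Q, ∀ y ∈ commutator Q, x * y = y * x) : Folner Q := by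
  apply folner_of_extension (commutator Q)
  · apply folner_of_comm
    rintro ⟨x, hx⟩ ⟨y, hy⟩
    exact Subtype.ext (h x hx y hy)
  · apply folner_of_comm
    intro x y
    exact mul_comm (G := Abelianization Q) x y

/-- Consequence: a finite set that grows little. -/
theorem Folner.exists_small_growth {Q : Type*} [Group Q] (h : Folner Q) (S : Finset Q) (ε : ℝ)
    (hε : 0 < ε) : ∃ E E' : Finset Q, E.Nonempty ∧ E ⊆ E' ∧ (∀ s ∈ S, ∀ x ∈ E, s * x ∈ E') ∧
      (E'.card : ℝ) ≤ (1 + ε) * E.card := by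
  classical
  have hS : (0 : ℝ) < S.card + 1 := by positivity
  obtain ⟨E, hE, hb⟩ := h S (ε / (S.card + 1)) (by positivity)
  choose! B hB hB' using hb
  refine ⟨E, E ∪ S.biUnion (fun s => (B s).image (fun x => s * x)), hE,
    Finset.subset_union_left, ?_, ?_⟩
  · intro s hs x hx
    rcases hB' s hs x hx with h | h
    · exact Finset.mem_union_left _ h
    · exact Finset.mem_union_right _
        (Finset.mem_biUnion.2 ⟨s, hs, Finset.mem_image.2 ⟨x, h, rfl⟩⟩)
  · have h1 : (E ∪ S.biUnion (fun s => (B s).image (fun x => s * x))).card ≤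
        E.card + ∑ s ∈ S, (B s).card := by
      refine (Finset.card_union_le _ _).trans ?_
      refine Nat.add_le_add_left ?_ _
      exact Finset.card_biUnion_le.trans (Finset.sum_le_sum (fun x _ => Finset.card_image_le))
    have h2 : ((∑ s ∈ S, (B s).card : ℕ) : ℝ) ≤ S.card * (ε / (S.card + 1) * E.card) := by
      push_cast
      calc ∑ s ∈ S, ((B s).card : ℝ) ≤ ∑ s ∈ S, ε / (S.card + 1) * (E.card : ℝ) :=
            Finset.sum_le_sum (fun s hs => hB s hs)
        _ = _ := by rw [Finset.sum_const, nsmul_eq_mul]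
    have h3 : (S.card : ℝ) * (ε / (S.card + 1) * E.card) ≤ ε * E.card := by
      have : (S.card : ℝ) * (ε / (S.card + 1)) ≤ ε := by
        rw [mul_div_assoc', div_le_iff₀ hS]
        nlinarith
      calc (S.card : ℝ) * (ε / (S.card + 1) * E.card) = (S.card : ℝ) * (ε / (S.card + 1)) * E.card := by
            ring
        _ ≤ _ := mul_le_mul_of_nonneg_right this (Nat.cast_nonneg _)
    have h4 : ((E ∪ S.biUnion (fun s => (B s).image (fun x => s * x))).card : ℝ) ≤
        E.card + ((∑ s ∈ S, (B s).card : ℕ) : ℝ) := by exact_mod_cast h1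
    linarith

/-- Greedy choice of many right translates of `P` that are pairwise disjoint. -/
theorem exists_disjoint_translates {Q : Type*} [Group Q] [DecidableEq Q] (P E : Finset Q)
    (hP : P.Nonempty) :
    ∃ Y : Finset Q, Y ⊆ E ∧ (∀ y ∈ Y, ∀ y' ∈ Y, y ≠ y' → ∀ p ∈ P, ∀ p' ∈ P, p * y ≠ p' * y') ∧
      E.card ≤ (P.card * P.card) * Y.card := by
  classical
  -- a maximal family
  let good : Finset Q → Prop := fun Y => Y ⊆ E ∧
    (∀ y ∈ Y, ∀ y' ∈ Y, y ≠ y' → ∀ p ∈ P, ∀ p' ∈ P, p * y ≠ p' * y')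
  have hfin : (E.powerset.filter (fun Y => good Y)).Nonempty :=
    ⟨∅, Finset.mem_filter.2 ⟨Finset.empty_mem_powerset _, Finset.empty_subset _, by simp⟩⟩
  obtain ⟨Y, hY, hmax⟩ := Finset.exists_max_image _ (fun Y => Y.card) hfin
  obtain ⟨hYE, hYg⟩ := Finset.mem_filter.1 hY
  refine ⟨Y, hYg.1, hYg.2, ?_⟩
  have hcov : E ⊆ (P ×ˢ P ×ˢ Y).image (fun t => t.1⁻¹ * (t.2.1 * t.2.2)) := by
    intro x hx
    by_contra hno
    have hno' : ∀ p ∈ P, ∀ p' ∈ P, ∀ y ∈ Y, p * x ≠ p' * y := by
      intro p hp p' hp' y hy heq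
      apply hno
      refine Finset.mem_image.2 ⟨(p, p', y), ?_, ?_⟩
      · simp [hp, hp', hy]
      · simp only; rw [← heq]; group
    have hxY : x ∉ Y := by
      intro hxY
      obtain ⟨p, hp⟩ := hP
      exact hno' p hp p hp x hxY rfl
    have hins : insert x Y ∈ E.powerset.filter (fun Y => good Y) := by
      refine Finset.mem_filter.2 ⟨Finset.mem_powerset.2 (Finset.insert_subset hx hYg.1),
        Finset.insert_subset hx hYg.1, ?_⟩
      intro y hy y' hy' hne p hp p' hp'
      rcases Finset.mem_insert.1 hy with h1 | h1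
      · rcases Finset.mem_insert.1 hy' with h2 | h2
        · exact absurd (h1.trans h2.symm) hne
        · rw [h1]; exact hno' p hp p' hp' y' h2
      · rcases Finset.mem_insert.1 hy' with h2 | h2
        · rw [h2]; exact fun heq => hno' p' hp' p hp y h1 heq.symm
        · exact hYg.2 y h1 y' h2 hne p hp p' hp'
    have := hmax _ hins
    rw [Finset.card_insert_of_notMem hxY] at this
    omega
  calc E.card ≤ ((P ×ˢ P ×ˢ Y).image (fun t => t.1⁻¹ * (t.2.1 * t.2.2))).card :=
        Finset.card_le_card hcov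
    _ ≤ (P ×ˢ P ×ˢ Y).card := Finset.card_image_le
    _ = _ := by rw [Finset.card_product, Finset.card_product]; ring

end Pool.Agent.Helper81.Hopf
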