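import Mathlib
import Pool.Agent.Helper81.Hopf.Folner

/-!
# Hopf property: the dimension count over an amenable group
-/

namespace Pool.Agent.Helper81.Hopf

/-- Dimension count: over a group with the Foelner property, a finite propagation operator `S` with
a left inverse `P` cannot have translates of a finitely supported vector in the kernel of `P`. -/
theorem dimension_count {D Q ι : Type*} [DivisionRing D] [Group Q] [Fintype ι]
    (hF : Folner Q)
    (S P : (ι → Q → D) →ₗ[D] (ι → Q → D)) (hPS : ∀ ψ, P (S ψ) = ψ)
    (T : Finset Q) (hT : ∀ ψ i q, (∀ j, ∀ t ∈ T, ψ j (t⁻¹ * q) = 0) → S ψ i q = 0)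
    (P0 : Finset Q) (v : Q → ι → Q → D) (hPv : ∀ y, P (v y) = 0)
    (hv0 : ∀ y, v y ≠ 0) (hvs : ∀ y i q, q * y⁻¹ ∉ P0 → v y i q = 0) : False := by
  classical
  -- nonemptiness
  have hvne : ∀ y, ∃ i q, v y i q ≠ 0 := by
    intro y
    by_contra hcon
    push Not at hcon
    exact hv0 y (funext fun i => funext fun q => hcon i q)
  obtain ⟨i0, q0, hq0⟩ := hvne 1
  have hP0 : P0.Nonempty := by
    refine ⟨q0 * 1⁻¹, ?_⟩
    by_contra hcon
    exact hq0 (hvs 1 i0 q0 hcon)
  have hι : (0 : ℝ) < Fintype.card ι := by
    have : 0 < Fintype.card ι := Fintype.card_pos_iff.2 ⟨i0⟩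
    exact_mod_cast this
  have hc : (0 : ℝ) < (P0.card : ℝ) * P0.card := by
    have : (0 : ℝ) < P0.card := by exact_mod_cast hP0.card_pos
    positivity
  obtain ⟨E, E', hE, hEE', hgrow, hcard⟩ := hF.exists_small_growth (T ∪ P0)
    (1 / (2 * Fintype.card ι * (P0.card * P0.card))) (by positivity)
  obtain ⟨Y, hYE, hYd, hYc⟩ := exists_disjoint_translates P0 E hP0
  -- the extension by zero
  let ext0 : (ι × E → D) →ₗ[D] (ι → Q → D) :=
    { toFun := fun ψ i q => if h : q ∈ E then ψ (i, ⟨q, h⟩) else 0
      map_add' := by
        intro ψ ψ'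
        funext i q
        by_cases h : q ∈ E <;> simp [h]
      map_smul' := by
        intro c ψ
        funext i q
        by_cases h : q ∈ E <;> simp [h] }
  let comb : (Y → D) →ₗ[D] (ι → Q → D) :=
    { toFun := fun c => ∑ y : Y, c y • v y
      map_add' := by
        intro c c'
        simp only [Pi.add_apply, add_smul, Finset.sum_add_distrib]
      map_smul' := by
        intro c c'
        simp only [Pi.smul_apply, smul_eq_mul, mul_smul, Finset.smul_sum, RingHom.id_apply] }
  let tot : ((ι × E → D) × (Y → D)) →ₗ[D] (ι → Q → D) :=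
    LinearMap.coprod (S ∘ₗ ext0) comb
  let res : (ι → Q → D) →ₗ[D] (ι × E' → D) :=
    { toFun := fun ψ x => ψ x.1 x.2
      map_add' := by intro ψ ψ'; rfl
      map_smul' := by intro c ψ; rfl }
  have htot : ∀ x, tot x = S (ext0 x.1) + comb x.2 := by
    intro x; rfl
  have hsupp : ∀ x i q, q ∉ E' → tot x i q = 0 := by
    intro x i q hq
    rw [htot]
    have h1 : S (ext0 x.1) i q = 0 := by
      apply hT
      intro j t ht
      have : t⁻¹ * q ∉ E := by
        intro hcon
        apply hq
        have := hgrow t (Finset.mem_union_left _ ht) _ hcon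
        simpa using this
      simp [ext0, this]
    have h2 : comb x.2 i q = 0 := by
      simp only [comb, LinearMap.coe_mk, AddHom.coe_mk, Finset.sum_apply, Pi.smul_apply]
      apply Finset.sum_eq_zero
      intro y _
      have : v y i q = 0 := by
        apply hvs
        intro hcon
        apply hq
        have := hgrow _ (Finset.mem_union_right _ hcon) _ (hYE y.2)
        simpa using this
      rw [this, smul_zero]
    simp [Pi.add_apply, h1, h2]
  have hinj : Function.Injective (res ∘ₗ tot) := by
    rw [← LinearMap.ker_eq_bot, LinearMap.ker_eq_bot']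
    rintro ⟨ψ, c⟩ hx
    have h0 : tot (ψ, c) = 0 := by
      funext i q
      by_cases hq : q ∈ E'
      · have := congrFun hx (i, ⟨q, hq⟩)
        simpa [res] using this
      · exact hsupp _ _ _ hq
    rw [htot] at h0
    have hPc : P (comb c) = 0 := by
      simp only [comb, LinearMap.coe_mk, AddHom.coe_mk, map_sum, map_smul, hPv, smul_zero,
        Finset.sum_const_zero]
    have h1 : ext0 ψ = 0 := by
      have := congrArg P h0
      rw [map_add, hPS, hPc, add_zero, map_zero] at this
      exact this
    have hψ : ψ = 0 := by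
      funext x
      have := congrFun (congrFun h1 x.1) (x.2 : Q)
      simpa [ext0] using this
    have h2 : comb c = 0 := by
      rw [show (ψ, c).1 = ψ from rfl, h1, map_zero, zero_add] at h0
      exact h0
    have hc0 : c = 0 := by
      funext y
      obtain ⟨i, q, hiq⟩ := hvne y
      have h3 : ∑ y' : Y, c y' • v y' i q = 0 := by
        have := congrFun (congrFun h2 i) q
        simpa [comb] using this
      rw [Finset.sum_eq_single y] at h3
      · rcases (by simpa using h3 : c y = 0 ∨ v y i q = 0) with h | h
        · exact h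
        · exact absurd h hiq
      · intro y' _ hne
        by_contra hcon
        have h4 : v y' i q ≠ 0 := fun h => hcon (by rw [h, smul_zero])
        have h5 : q * (y' : Q)⁻¹ ∈ P0 := by
          by_contra h; exact h4 (hvs _ _ _ h)
        have h6 : q * (y : Q)⁻¹ ∈ P0 := by
          by_contra h; exact hiq (hvs _ _ _ h)
        exact hYd y' y'.2 y y.2 (fun h => hne (Subtype.ext h)) _ h5 _ h6 (by simp)
      · intro h; exact absurd (Finset.mem_univ _) h
    rw [hψ, hc0]; rfl
  have hfr := LinearMap.finrank_le_finrank_of_injective hinj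
  rw [Module.finrank_prod, Module.finrank_fintype_fun_eq_card, Module.finrank_fintype_fun_eq_card,
    Module.finrank_fintype_fun_eq_card, Fintype.card_prod, Fintype.card_prod, Fintype.card_coe,
    Fintype.card_coe, Fintype.card_coe] at hfr
  have hfr' : (Fintype.card ι : ℝ) * E.card + Y.card ≤ Fintype.card ι * E'.card := by
    exact_mod_cast hfr
  have hYc' : (E.card : ℝ) ≤ (P0.card * P0.card) * Y.card := by exact_mod_cast hYc
  have hE0 : (0 : ℝ) < E.card := by exact_mod_cast hE.card_pos
  have h7 : (Y.card : ℝ) ≤ E.card / (2 * (P0.card * P0.card)) := by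
    have h8 : (Fintype.card ι : ℝ) * E'.card ≤
        Fintype.card ι * ((1 + 1 / (2 * Fintype.card ι * (P0.card * P0.card))) * E.card) :=
      mul_le_mul_of_nonneg_left hcard hι.le
    have h9 : (Fintype.card ι : ℝ) * ((1 + 1 / (2 * Fintype.card ι * (P0.card * P0.card))) * E.card)
        = Fintype.card ι * E.card + E.card / (2 * (P0.card * P0.card)) := by
      field_simp
    linarith
  have h10 : (E.card : ℝ) ≤ E.card / 2 := by
    calc (E.card : ℝ) ≤ (P0.card * P0.card) * Y.card := hYc'
      _ ≤ (P0.card * P0.card) * (E.card / (2 * (P0.card * P0.card))) :=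
          mul_le_mul_of_nonneg_left h7 hc.le
      _ = E.card / 2 := by field_simp
  linarith

end Pool.Agent.Helper81.Hopf
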