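import Mathlib
import Pool.Agent.Helper81.Hopf.DimCount

/-!
# Hopf property: twisted group algebras of amenable groups are stably finite
-/

namespace Pool.Agent.Helper81.Hopf

open Finset

/-- A normal subgroup `K` of `F` with a central, conjugation invariant, multiplicative function on
`K` with values in a division ring, extended by zero. -/
structure TwistData (F D : Type*) [Group F] [DivisionRing D] where
  /-- the normal subgroup -/
  K : Subgroup F
  /-- it is normal -/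
  normal : K.Normal
  /-- the function -/
  χ : F → D
  χ_zero : ∀ w, w ∉ K → χ w = 0
  χ_one : χ 1 = 1
  χ_mul : ∀ k ∈ K, ∀ k' ∈ K, χ (k * k') = χ k * χ k'
  χ_conj : ∀ w, ∀ k ∈ K, χ (w * k * w⁻¹) = χ k
  χ_comm : ∀ w d, χ w * d = d * χ w

namespace TwistData

variable {F D : Type*} [Group F] [DivisionRing D] (T : TwistData F D)

instance : T.K.Normal := T.normal

theorem χ_mul' {k : F} (hk : k ∈ T.K) (w : F) : T.χ (k * w) = T.χ k * T.χ w := by
  by_cases hw : w ∈ T.K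
  · exact T.χ_mul k hk w hw
  · rw [T.χ_zero w hw, mul_zero]
    apply T.χ_zero
    intro h
    exact hw ((Subgroup.mul_mem_cancel_left _ hk).1 h)

theorem χ_ne_zero {k : F} (hk : k ∈ T.K) : T.χ k ≠ 0 := by
  intro h
  have := T.χ_mul k hk k⁻¹ (inv_mem hk)
  rw [mul_inv_cancel, T.χ_one, h, zero_mul] at this
  exact one_ne_zero this

/-- all partial sums of `f` vanish -/
def PS (f : MonoidAlgebra ℤ F) : Prop :=
  ∀ w0 : F, (f.coeff.sum fun w n => n • T.χ (w0⁻¹ * w)) = 0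

/-- the projection to the quotient -/
def pr (g : F) : F ⧸ T.K := QuotientGroup.mk g

/-- the section -/
noncomputable def sec (q : F ⧸ T.K) : F := q.out

theorem pr_sec (q : F ⧸ T.K) : T.pr (T.sec q) = q := Quotient.out_eq' q

theorem pr_mul (g h : F) : T.pr (g * h) = T.pr g * T.pr h := rfl

theorem pr_inv (g : F) : T.pr g⁻¹ = (T.pr g)⁻¹ := rfl

theorem pr_one : T.pr 1 = 1 := rfl

theorem pr_eq_one {g : F} : T.pr g = 1 ↔ g ∈ T.K := QuotientGroup.eq_one_iff g

theorem coc_mem (g : F) (q : F ⧸ T.K) : (T.sec q)⁻¹ * g * T.sec ((T.pr g)⁻¹ * q) ∈ T.K := by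
  rw [← T.pr_eq_one]
  simp only [pr_mul, pr_inv, pr_sec]
  group

/-- the twisted translation operators -/
noncomputable def opF (g : F) : Module.End D (F ⧸ T.K → D) where
  toFun ψ q := T.χ ((T.sec q)⁻¹ * g * T.sec ((T.pr g)⁻¹ * q)) * ψ ((T.pr g)⁻¹ * q)
  map_add' ψ ψ' := by
    funext q
    simp only [Pi.add_apply, mul_add]
  map_smul' c ψ := by
    funext q
    simp only [Pi.smul_apply, smul_eq_mul, RingHom.id_apply, ← mul_assoc, T.χ_comm _ c]

theorem opF_apply (g : F) (ψ : F ⧸ T.K → D) (q : F ⧸ T.K) :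
    T.opF g ψ q = T.χ ((T.sec q)⁻¹ * g * T.sec ((T.pr g)⁻¹ * q)) * ψ ((T.pr g)⁻¹ * q) := rfl

/-- the twisted translation operators as a homomorphism -/
noncomputable def opHom : F →* Module.End D (F ⧸ T.K → D) where
  toFun := T.opF
  map_one' := by
    ext ψ q
    rw [opF_apply]
    simp only [pr_one, inv_one, one_mul, mul_one, inv_mul_cancel, T.χ_one, Module.End.one_apply]
  map_mul' g h := by
    refine LinearMap.ext fun ψ => funext fun q => ?_
    have h1 : (T.pr (g * h))⁻¹ * q = (T.pr h)⁻¹ * ((T.pr g)⁻¹ * q) := by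
      rw [pr_mul, mul_inv_rev, mul_assoc]
    have h2 := T.χ_mul _ (T.coc_mem g q) _ (T.coc_mem h ((T.pr g)⁻¹ * q))
    rw [Module.End.mul_apply, opF_apply, opF_apply, opF_apply, h1,
      ← mul_assoc (T.χ ((T.sec q)⁻¹ * g * T.sec ((T.pr g)⁻¹ * q))), ← h2]
    congr 2
    group

/-- the twisted representation of the group ring -/
noncomputable def opAlg : MonoidAlgebra ℤ F →ₐ[ℤ] Module.End D (F ⧸ T.K → D) :=
  MonoidAlgebra.lift ℤ (Module.End D (F ⧸ T.K → D)) F T.opHom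

theorem opAlg_apply (f : MonoidAlgebra ℤ F) (ψ : F ⧸ T.K → D) (q : F ⧸ T.K) :
    T.opAlg f ψ q = ∑ g ∈ f.coeff.support, f.coeff g •
      (T.χ ((T.sec q)⁻¹ * g * T.sec ((T.pr g)⁻¹ * q)) * ψ ((T.pr g)⁻¹ * q)) := by
  rw [opAlg, MonoidAlgebra.lift_apply, Finsupp.sum, LinearMap.sum_apply, Finset.sum_apply]
  rfl

theorem coc_eq (q r : F ⧸ T.K) (g : F) (h : (T.pr g)⁻¹ * q = r) :
    T.χ ((T.sec q)⁻¹ * g * T.sec r) = T.χ ((T.sec q * (T.sec r)⁻¹)⁻¹ * g) := by
  have h1 : (T.sec q)⁻¹ * g * T.sec r ∈ T.K := by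
    rw [← h]; exact T.coc_mem g q
  rw [← T.χ_conj (T.sec r) _ h1]
  congr 1
  group

theorem coc_zero (q r : F ⧸ T.K) (g : F) (h : (T.pr g)⁻¹ * q ≠ r) :
    T.χ ((T.sec q * (T.sec r)⁻¹)⁻¹ * g) = 0 := by
  apply T.χ_zero
  rw [← T.pr_eq_one]
  simp only [pr_mul, pr_inv, pr_sec]
  intro hcon
  apply h
  have : T.pr g = q * r⁻¹ := by
    rw [mul_inv_rev, inv_inv] at hcon
    calc T.pr g = (r * q⁻¹)⁻¹ * ((r * q⁻¹) * T.pr g) := by group
      _ = q * r⁻¹ := by rw [hcon]; group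
  rw [this]
  group

theorem opAlg_eq_zero {f : MonoidAlgebra ℤ F} (hf : T.PS f) : T.opAlg f = 0 := by
  classical
  refine LinearMap.ext fun ψ => funext fun q => ?_
  rw [opAlg_apply]
  let R : Finset (F ⧸ T.K) := f.coeff.support.image (fun g => (T.pr g)⁻¹ * q)
  have h1 : ∀ g ∈ f.coeff.support, f.coeff g •
      (T.χ ((T.sec q)⁻¹ * g * T.sec ((T.pr g)⁻¹ * q)) * ψ ((T.pr g)⁻¹ * q)) =
      ∑ r ∈ R, f.coeff g • (T.χ ((T.sec q * (T.sec r)⁻¹)⁻¹ * g) * ψ r) := by
    intro g hg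
    rw [Finset.sum_eq_single ((T.pr g)⁻¹ * q)]
    · rw [T.coc_eq q _ g rfl]
    · intro r _ hr
      rw [T.coc_zero q r g (Ne.symm hr), zero_mul, smul_zero]
    · intro h
      exact absurd (Finset.mem_image_of_mem _ hg) h
  rw [Finset.sum_congr rfl h1, Finset.sum_comm]
  simp only [LinearMap.zero_apply, Pi.zero_apply]
  apply Finset.sum_eq_zero
  intro r _
  have h2 := hf (T.sec q * (T.sec r)⁻¹)
  rw [Finsupp.sum] at h2
  have h3 : ∑ g ∈ f.coeff.support, f.coeff g • (T.χ ((T.sec q * (T.sec r)⁻¹)⁻¹ * g) * ψ r) =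
      (∑ g ∈ f.coeff.support, f.coeff g • T.χ ((T.sec q * (T.sec r)⁻¹)⁻¹ * g)) * ψ r := by
    rw [Finset.sum_mul]
    apply Finset.sum_congr rfl
    intro g _
    rw [smul_mul_assoc]
  rw [h3, h2, zero_mul]

theorem opAlg_single [DecidableEq (F ⧸ T.K)] (f : MonoidAlgebra ℤ F) (y q : F ⧸ T.K) :
    T.opAlg f (Pi.single y 1) q =
      f.coeff.sum fun w n => n • T.χ ((T.sec q * (T.sec y)⁻¹)⁻¹ * w) := by
  rw [opAlg_apply, Finsupp.sum]
  apply Finset.sum_congr rfl
  intro g _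
  by_cases h : (T.pr g)⁻¹ * q = y
  · rw [← T.coc_eq q y g h, h, Pi.single_eq_same, mul_one]
  · rw [T.coc_zero q y g h, Pi.single_eq_of_ne h, mul_zero]

theorem opAlg_single_ne [DecidableEq (F ⧸ T.K)] {f : MonoidAlgebra ℤ F} (hf : ¬ T.PS f)
    (y : F ⧸ T.K) : T.opAlg f (Pi.single y 1) ≠ 0 := by
  intro hcon
  apply hf
  intro w0
  have h1 := congrFun hcon (T.pr w0 * y)
  rw [opAlg_single] at h1
  -- `sec (w0 y) sec(y)⁻¹ = w0 k`
  have hk : (T.sec (T.pr w0 * y) * (T.sec y)⁻¹)⁻¹ * w0 ∈ T.K := by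
    rw [← T.pr_eq_one]
    simp only [pr_mul, pr_inv, pr_sec]
    group
  have h2 : ∀ w : F, T.χ ((T.sec (T.pr w0 * y) * (T.sec y)⁻¹)⁻¹ * w) =
      T.χ ((T.sec (T.pr w0 * y) * (T.sec y)⁻¹)⁻¹ * w0) * T.χ (w0⁻¹ * w) := by
    intro w
    rw [← T.χ_mul' hk]
    congr 1
    group
  rw [Finsupp.sum] at h1
  have h3 : ∑ w ∈ f.coeff.support, f.coeff w •
      T.χ ((T.sec (T.pr w0 * y) * (T.sec y)⁻¹)⁻¹ * w) =
      T.χ ((T.sec (T.pr w0 * y) * (T.sec y)⁻¹)⁻¹ * w0) *
        ∑ w ∈ f.coeff.support, f.coeff w • T.χ (w0⁻¹ * w) := by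
    rw [Finset.mul_sum]
    apply Finset.sum_congr rfl
    intro w _
    rw [h2 w, mul_smul_comm]
  rw [h3, Pi.zero_apply] at h1
  rcases mul_eq_zero.1 h1 with h | h
  · exact absurd h (T.χ_ne_zero hk)
  · rw [Finsupp.sum]; exact h

variable {ι : Type*} [Fintype ι] [DecidableEq ι]

/-- the matrix operators -/
noncomputable def opM : Matrix ι ι (MonoidAlgebra ℤ F) →+* Module.End D (ι → F ⧸ T.K → D) :=
  ((endVecRingEquivMatrixEnd ι D (F ⧸ T.K → D)).symm : Matrix ι ι _ →+* _).comp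
    (T.opAlg.toRingHom.mapMatrix)

theorem opM_apply (α : Matrix ι ι (MonoidAlgebra ℤ F)) (ψ : ι → F ⧸ T.K → D) (i : ι) :
    T.opM α ψ i = ∑ j, T.opAlg (α i j) (ψ j) := rfl

theorem core (hF : Folner (F ⧸ T.K)) (α β : Matrix ι ι (MonoidAlgebra ℤ F))
    (h : ∀ i j, T.PS ((β * α - 1) i j)) : ∀ i j, T.PS ((α * β - 1) i j) := by
  classical
  by_contra hcon
  push Not at hcon
  obtain ⟨i0, j0, hij⟩ := hcon
  have hzero : T.opM (β * α - 1) = 0 := by
    refine LinearMap.ext fun ψ => funext fun i => ?_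
    rw [opM_apply]
    apply Finset.sum_eq_zero
    intro j _
    rw [T.opAlg_eq_zero (h i j)]
    rfl
  have hPS : ∀ ψ, T.opM β (T.opM α ψ) = ψ := by
    intro ψ
    have h1 : T.opM β * T.opM α = 1 := by
      rw [map_sub, map_mul, map_one, sub_eq_zero] at hzero
      exact hzero
    have := congrArg (fun L => L ψ) h1
    simpa using this
  have hker : ∀ ψ, T.opM β (T.opM (α * β - 1) ψ) = 0 := by
    intro ψ
    have h1 : T.opM β * T.opM (α * β - 1) = 0 := by
      rw [← map_mul]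
      have h2 : β * (α * β - 1) = (β * α - 1) * β := by noncomm_ring
      rw [h2, map_mul, hzero, zero_mul]
    have := congrArg (fun L => L ψ) h1
    simpa using this
  let v : F ⧸ T.K → ι → F ⧸ T.K → D := fun y =>
    T.opM (α * β - 1) (Pi.single j0 (Pi.single y 1))
  have hv : ∀ y i, v y i = T.opAlg ((α * β - 1) i j0) (Pi.single y 1) := by
    intro y i
    simp only [v]
    rw [opM_apply, Finset.sum_eq_single j0]
    · rw [Pi.single_eq_same]
    · intro j _ hj
      rw [Pi.single_eq_of_ne hj, map_zero]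
    · intro h; exact absurd (Finset.mem_univ _) h
  refine dimension_count hF (T.opM α) (T.opM β) hPS
    (Finset.univ.biUnion fun i => Finset.univ.biUnion fun j =>
      (α i j).coeff.support.image T.pr) ?_
    (Finset.univ.biUnion fun i => ((α * β - 1) i j0).coeff.support.image T.pr) v
    (fun y => hker _) ?_ ?_
  · intro ψ i q hψ
    rw [opM_apply, Finset.sum_apply]
    apply Finset.sum_eq_zero
    intro j _
    rw [opAlg_apply]
    apply Finset.sum_eq_zero
    intro g hg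
    rw [hψ j (T.pr g) (Finset.mem_biUnion.2 ⟨i, Finset.mem_univ _, Finset.mem_biUnion.2
      ⟨j, Finset.mem_univ _, Finset.mem_image_of_mem _ hg⟩⟩), mul_zero, smul_zero]
  · intro y hy
    apply T.opAlg_single_ne hij y
    rw [← hv, hy]
    rfl
  · intro y i q hq
    rw [hv, opAlg_apply]
    apply Finset.sum_eq_zero
    intro g hg
    have hne : (T.pr g)⁻¹ * q ≠ y := by
      intro hcon
      apply hq
      have h1 : q * y⁻¹ = T.pr g := by
        rw [← hcon]; group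
      rw [h1]
      exact Finset.mem_biUnion.2 ⟨i, Finset.mem_univ _, Finset.mem_image_of_mem _ hg⟩
    rw [Pi.single_eq_of_ne hne, mul_zero, smul_zero]

end TwistData

end Pool.Agent.Helper81.Hopf
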