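import Mathlib
import Pool.Agent.Helper81.Hopf.Core

/-!
# Hopf property: laws on simple modules of metabelian groups
-/

namespace Pool.Agent.Helper81.Hopf

open Finset

section Action

variable {G : Type*} [Group G] {M : Type*} [AddCommGroup M] [Module (MonoidAlgebra ℤ G) M]

/-- the action of a group element -/
noncomputable def act (g : G) : M →+ M where
  toFun m := (MonoidAlgebra.of ℤ G g : MonoidAlgebra ℤ G) • m
  map_zero' := smul_zero _
  map_add' := smul_add _

theorem act_def (g : G) (m : M) : act g m = (MonoidAlgebra.of ℤ G g : MonoidAlgebra ℤ G) • m := rfl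

theorem act_mul (g h : G) (m : M) : act (g * h) m = act g (act h m) := by
  rw [act_def, act_def, act_def, map_mul, mul_smul]

theorem act_one (m : M) : act (1 : G) m = m := by
  rw [act_def, map_one, one_smul]

theorem act_inv_act (g : G) (m : M) : act g⁻¹ (act g m) = m := by
  rw [← act_mul, inv_mul_cancel, act_one]

theorem act_act_inv (g : G) (m : M) : act g (act g⁻¹ m) = m := by
  rw [← act_mul, mul_inv_cancel, act_one]

theorem act_injective (g : G) {m m' : M} (h : act g m = act g m') : m = m' := by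
  rw [← act_inv_act g m, h, act_inv_act]

theorem act_eq_zero (g : G) {m : M} (h : act g m = 0) : m = 0 := by
  apply act_injective g
  rw [h, map_zero]

theorem smul_mem_of_act (P : AddSubgroup M) (hP : ∀ g : G, ∀ u ∈ P, act g u ∈ P)
    (r : MonoidAlgebra ℤ G) : ∀ u ∈ P, r • u ∈ P := by
  induction r using MonoidAlgebra.induction_on with
  | of g => exact fun u hu => hP g u hu
  | add x y hx hy =>
    intro u hu
    rw [add_smul]
    exact P.add_mem (hx u hu) (hy u hu)
  | smul n x hx =>
    intro u hu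
    rw [smul_assoc]
    exact P.zsmul_mem (hx u hu) n

theorem smul_comm_of_act (φ : M →+ M) (hφ : ∀ (g : G) (m : M), φ (act g m) = act g (φ m))
    (r : MonoidAlgebra ℤ G) : ∀ m, φ (r • m) = r • φ m := by
  induction r using MonoidAlgebra.induction_on with
  | of g => exact fun m => hφ g m
  | add x y hx hy =>
    intro m
    rw [add_smul, map_add, hx, hy, add_smul]
  | smul n x hx =>
    intro m
    rw [smul_assoc, map_zsmul, hx, smul_assoc]

variable {κ : Type*}

/-- evaluation of group ring elements of the free group -/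
noncomputable def ev (g : κ → G) : MonoidAlgebra ℤ (FreeGroup κ) →+* MonoidAlgebra ℤ G :=
  MonoidAlgebra.mapDomainRingHom ℤ (FreeGroup.lift g)

theorem ev_of (g : κ → G) (w : FreeGroup κ) :
    ev g (MonoidAlgebra.of ℤ (FreeGroup κ) w) = MonoidAlgebra.of ℤ G (FreeGroup.lift g w) := by
  rw [ev, MonoidAlgebra.mapDomainRingHom_apply, MonoidAlgebra.of_apply, MonoidAlgebra.of_apply,
    MonoidAlgebra.mapDomain_single]

theorem ev_smul (g : κ → G) (f : MonoidAlgebra ℤ (FreeGroup κ)) (m : M) :
    ev g f • m = f.coeff.sum fun w n => n • act (FreeGroup.lift g w) m := by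
  induction f using MonoidAlgebra.induction_on with
  | of w =>
    rw [ev_of]
    change _ = (MonoidAlgebra.single w (1 : ℤ)).coeff.sum _
    rw [MonoidAlgebra.coeff_single, Finsupp.sum_single_index]
    · rw [one_smul]; rfl
    · rw [zero_smul]
  | add x y hx hy =>
    rw [map_add, add_smul, hx, hy, MonoidAlgebra.coeff_add, Finsupp.sum_add_index']
    · intro w; rw [zero_smul]
    · intro w n n'; rw [add_smul]
  | smul n x hx =>
    rw [map_zsmul, smul_assoc, hx, MonoidAlgebra.coeff_smul, Finsupp.sum_smul_index']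
    · rw [Finsupp.smul_sum]
      apply Finsupp.sum_congr
      intro w _
      rw [smul_eq_mul, mul_smul]
    · intro w; rw [zero_smul]

end Action

section Words

variable {G κ : Type*} [Group G]

/-- the value of the word `w` at the tuple `c g0` -/
def W (g0 : κ → G) (w : FreeGroup κ) (c : κ → G) : G := FreeGroup.lift (fun i => c i * g0 i) w

/-- the junk factor -/
def Lam (g0 : κ → G) (w : FreeGroup κ) (c : κ → G) : G := W g0 w c * (FreeGroup.lift g0 w)⁻¹

theorem W_eq (g0 : κ → G) (w : FreeGroup κ) (c : κ → G) :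
    W g0 w c = Lam g0 w c * FreeGroup.lift g0 w := by
  rw [Lam, inv_mul_cancel_right]

theorem W_mul (g0 : κ → G) (u v : FreeGroup κ) (c : κ → G) :
    W g0 (u * v) c = W g0 u c * W g0 v c := by
  rw [W, W, W, map_mul]

theorem W_inv (g0 : κ → G) (u : FreeGroup κ) (c : κ → G) :
    W g0 u⁻¹ c = (W g0 u c)⁻¹ := by
  rw [W, W, map_inv]

theorem W_one (g0 : κ → G) (c : κ → G) : W g0 1 c = 1 := by
  rw [W, map_one]

theorem W_triv (g0 : κ → G) (w : FreeGroup κ) : W g0 w (fun _ => 1) = FreeGroup.lift g0 w := by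
  rw [W]
  simp only [one_mul]

theorem Lam_triv (g0 : κ → G) (w : FreeGroup κ) : Lam g0 w (fun _ => 1) = 1 := by
  rw [Lam, W_triv, mul_inv_cancel]

theorem Lam_mul (g0 : κ → G) (u v : FreeGroup κ) (c : κ → G) :
    Lam g0 (u * v) c =
      Lam g0 u c * (FreeGroup.lift g0 u * Lam g0 v c * (FreeGroup.lift g0 u)⁻¹) := by
  rw [Lam, Lam, Lam, W_mul, map_mul]
  group

theorem Lam_of (g0 : κ → G) (i : κ) (c : κ → G) : Lam g0 (FreeGroup.of i) c = c i := by
  rw [Lam, W, FreeGroup.lift_apply_of, FreeGroup.lift_apply_of, mul_inv_cancel_right]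

theorem Lam_of_inv (g0 : κ → G) (i : κ) (c : κ → G) :
    Lam g0 (FreeGroup.of i)⁻¹ c = (g0 i)⁻¹ * (c i)⁻¹ * g0 i := by
  rw [Lam, W_inv, W, map_inv, FreeGroup.lift_apply_of, FreeGroup.lift_apply_of]
  group

theorem Lam_one (g0 : κ → G) (c : κ → G) : Lam g0 1 c = 1 := by
  rw [Lam, W_one, map_one, inv_one, mul_one]

theorem Lam_mem (g0 : κ → G) (N : Subgroup G) [hN : N.Normal] (w : FreeGroup κ) (c : κ → G)
    (hc : ∀ i, c i ∈ N) : Lam g0 w c ∈ N := by
  induction w using FreeGroup.induction_on with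
  | C1 => rw [Lam_one]; exact N.one_mem
  | of i =>
    rw [Lam_of]; exact hc i
  | inv_of i _ =>
    rw [Lam_of_inv]
    have := hN.conj_mem _ (N.inv_mem (hc i)) (g0 i)⁻¹
    simpa using this
  | mul x y hx hy =>
    rw [Lam_mul]
    exact N.mul_mem hx (hN.conj_mem _ hy _)

theorem Lam_mul_right (hG : ∀ x ∈ commutator G, ∀ y ∈ commutator G, x * y = y * x)
    (g0 : κ → G) (w : FreeGroup κ) (c c' : κ → G)
    (hc : ∀ i, c i ∈ commutator G) (hc' : ∀ i, c' i ∈ commutator G) :
    Lam g0 w (fun i => c i * c' i) = Lam g0 w c * Lam g0 w c' := by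
  have hN : (commutator G).Normal := inferInstance
  induction w using FreeGroup.induction_on with
  | C1 => rw [Lam_one, Lam_one, Lam_one, mul_one]
  | of i =>
    change Lam g0 (FreeGroup.of i) _ = Lam g0 (FreeGroup.of i) _ * Lam g0 (FreeGroup.of i) _
    rw [Lam_of, Lam_of, Lam_of]
  | inv_of i _ =>
    change Lam g0 (FreeGroup.of i)⁻¹ _ = Lam g0 (FreeGroup.of i)⁻¹ _ * Lam g0 (FreeGroup.of i)⁻¹ _
    rw [Lam_of_inv, Lam_of_inv, Lam_of_inv, hG _ (hc i) _ (hc' i)]
    group
  | mul x y hx hy =>
    rw [Lam_mul, Lam_mul, Lam_mul, hx, hy]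
    have h1 := hG _ (Lam_mem g0 (commutator G) x c' hc') _
      (hN.conj_mem _ (Lam_mem g0 (commutator G) y c hc) (FreeGroup.lift g0 x))
    calc Lam g0 x c * Lam g0 x c' *
          (FreeGroup.lift g0 x * (Lam g0 y c * Lam g0 y c') * (FreeGroup.lift g0 x)⁻¹)
        = Lam g0 x c * (Lam g0 x c' *
          (FreeGroup.lift g0 x * Lam g0 y c * (FreeGroup.lift g0 x)⁻¹)) *
          (FreeGroup.lift g0 x * Lam g0 y c' * (FreeGroup.lift g0 x)⁻¹) := by group
      _ = _ := by rw [h1]; group

theorem comm_mem (a b : G) : a * b * a⁻¹ * b⁻¹ ∈ commutator G := by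
  rw [commutator_def, ← commutatorElement_def]
  exact Subgroup.commutator_mem_commutator (Subgroup.mem_top a) (Subgroup.mem_top b)

/-- conjugations commute on the commutator subgroup of a metabelian group -/
theorem conj_conj_comm (hG : ∀ x ∈ commutator G, ∀ y ∈ commutator G, x * y = y * x)
    {x : G} (hx : x ∈ commutator G) (a b : G) :
    a * (b * x * b⁻¹) * a⁻¹ = b * (a * x * a⁻¹) * b⁻¹ := by
  have hN : (commutator G).Normal := inferInstance
  have hk : a * b * a⁻¹ * b⁻¹ ∈ commutator G := comm_mem a b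
  have h1 := hG _ hk _ (hN.conj_mem _ (hN.conj_mem _ hx a) b)
  calc a * (b * x * b⁻¹) * a⁻¹
      = (a * b * a⁻¹ * b⁻¹) * (b * (a * x * a⁻¹) * b⁻¹) * (a * b * a⁻¹ * b⁻¹)⁻¹ := by group
    _ = b * (a * x * a⁻¹) * b⁻¹ := by rw [h1]; group

theorem Lam_conj (hG : ∀ x ∈ commutator G, ∀ y ∈ commutator G, x * y = y * x)
    (g0 : κ → G) (w : FreeGroup κ) (c : κ → G) (hc : ∀ i, c i ∈ commutator G) (h : G) :
    Lam g0 w (fun i => h * c i * h⁻¹) = h * Lam g0 w c * h⁻¹ := by
  induction w using FreeGroup.induction_on with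
  | C1 => rw [Lam_one, Lam_one]; group
  | of i =>
    rw [Lam_of, Lam_of]
  | inv_of i _ =>
    rw [Lam_of_inv, Lam_of_inv]
    have h1 := conj_conj_comm hG ((commutator G).inv_mem (hc i)) h (g0 i)⁻¹
    rw [inv_inv] at h1
    rw [h1]
    group
  | mul x y hx hy =>
    rw [Lam_mul, Lam_mul, hx, hy]
    have h1 := conj_conj_comm hG (Lam_mem g0 (commutator G) y c hc) (FreeGroup.lift g0 x) h
    rw [h1]
    group

end Words

section SimpleModule

variable {G κ : Type*} [Group G] (hG : ∀ x ∈ commutator G, ∀ y ∈ commutator G, x * y = y * x)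
  (M : Type*) [AddCommGroup M] [Module (MonoidAlgebra ℤ G) M] (g0 : κ → G)

/-- the subgroup of the words that act in the same way for all junk -/
def KK : Subgroup (FreeGroup κ) where
  carrier := {w | ∀ c : κ → G, (∀ i, c i ∈ commutator G) → ∀ m : M,
    act (W g0 w c) m = act (FreeGroup.lift g0 w) m}
  one_mem' := by
    intro c _ m
    rw [W_one, map_one]
  mul_mem' := by
    intro u v hu hv c hc m
    rw [W_mul, act_mul, hv c hc, hu c hc, map_mul, act_mul]
  inv_mem' := by
    intro u hu c hc m
    have h1 := hu c hc (act (FreeGroup.lift g0 u)⁻¹ m)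
    rw [act_act_inv] at h1
    rw [W_inv, map_inv]
    apply act_injective (W g0 u c)
    rw [act_act_inv, h1]

variable {M g0}

theorem KK_mem {w : FreeGroup κ} : w ∈ KK M g0 ↔ ∀ c : κ → G, (∀ i, c i ∈ commutator G) →
    ∀ m : M, act (W g0 w c) m = act (FreeGroup.lift g0 w) m := Iff.rfl

theorem KK_central {k : FreeGroup κ} (hk : k ∈ KK M g0) (h : G) (m : M) :
    act h (act (FreeGroup.lift g0 k) m) = act (FreeGroup.lift g0 k) (act h m) := by
  have hc : ∀ i, h * g0 i * h⁻¹ * (g0 i)⁻¹ ∈ commutator G := fun i => comm_mem h (g0 i)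
  have h1 := hk _ hc (act h m)
  have h2 : W g0 k (fun i => h * g0 i * h⁻¹ * (g0 i)⁻¹) = h * FreeGroup.lift g0 k * h⁻¹ := by
    have h3 : (FreeGroup.lift (fun i => h * g0 i * h⁻¹ * (g0 i)⁻¹ * g0 i)) =
        (MulAut.conj h).toMonoidHom.comp (FreeGroup.lift g0) := by
      ext i
      simp
    rw [W, h3]
    rfl
  rw [h2, act_mul, act_mul, act_inv_act] at h1
  exact h1

theorem KK_conj {k : FreeGroup κ} (hk : k ∈ KK M g0) (w : FreeGroup κ) (c : κ → G)
    (hc : ∀ i, c i ∈ commutator G) (m : M) :
    act (W g0 (w * k * w⁻¹) c) m = act (FreeGroup.lift g0 k) m := by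
  rw [W_mul, W_mul, act_mul, act_mul, hk c hc, KK_central hk, W_inv, act_act_inv]

instance KK_normal : (KK M g0).Normal where
  conj_mem k hk w := by
    intro c hc m
    rw [KK_conj hk w c hc m]
    have h1 := KK_conj hk w (fun _ => 1) (fun _ => Subgroup.one_mem _) m
    rw [W_triv] at h1
    rw [h1]

variable (M g0) in
/-- the central character -/
noncomputable def chiKK (w : FreeGroup κ) : Module.End (MonoidAlgebra ℤ G) M :=
  open Classical in
  if h : w ∈ KK M g0 then
    { toFun := fun m => act (FreeGroup.lift g0 w) m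
      map_add' := map_add _
      map_smul' := fun r m => smul_comm_of_act (act (FreeGroup.lift g0 w))
        (fun g m => (KK_central h g m).symm) r m }
  else 0

theorem chiKK_apply {w : FreeGroup κ} (h : w ∈ KK M g0) (m : M) :
    chiKK M g0 w m = act (FreeGroup.lift g0 w) m := by
  rw [chiKK, dif_pos h]
  rfl

theorem chiKK_zero {w : FreeGroup κ} (h : w ∉ KK M g0) : chiKK M g0 w = 0 := by
  rw [chiKK, dif_neg h]

variable [IsSimpleModule (MonoidAlgebra ℤ G) M]

open Classical in
variable (M g0) in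
/-- the twisting data of a simple module -/
noncomputable def twist : TwistData (FreeGroup κ) (Module.End (MonoidAlgebra ℤ G) M) where
  K := KK M g0
  normal := KK_normal
  χ := chiKK M g0
  χ_zero w hw := chiKK_zero hw
  χ_one := by
    ext m
    rw [chiKK_apply (Subgroup.one_mem _), map_one, act_one]
    rfl
  χ_mul k hk k' hk' := by
    ext m
    rw [Module.End.mul_apply, chiKK_apply hk, chiKK_apply hk', chiKK_apply (Subgroup.mul_mem _ hk hk'),
      map_mul, act_mul]
  χ_conj w k hk := by
    ext m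
    rw [chiKK_apply hk, chiKK_apply (KK_normal.conj_mem k hk w)]
    have h1 := KK_conj hk w (fun _ => 1) (fun _ => Subgroup.one_mem _) m
    rw [W_triv] at h1
    exact h1
  χ_comm w d := by
    by_cases hw : w ∈ KK M g0
    · ext m
      rw [Module.End.mul_apply, Module.End.mul_apply, chiKK_apply hw, chiKK_apply hw, act_def,
        act_def, map_smul]
    · rw [chiKK_zero hw, zero_mul, mul_zero]

include hG in
/-- Dedekind independence -/
theorem dedekind (S : Finset (FreeGroup κ)) (hS : ∀ w ∈ S, ∀ w' ∈ S, w ≠ w' → w⁻¹ * w' ∉ KK M g0) :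
    ∀ (u : FreeGroup κ → M),
    (∀ c : κ → G, (∀ i, c i ∈ commutator G) → ∑ w ∈ S, act (Lam g0 w c) (u w) = 0) →
    ∀ w ∈ S, u w = 0 := by
  classical
  induction S using Finset.induction_on with
  | empty => intro u _ w hw; exact absurd hw (Finset.notMem_empty _)
  | insert w1 S hw1 ih =>
    intro u hsum
    have hcomm : ∀ (w w' : FreeGroup κ) (c c' : κ → G), (∀ i, c i ∈ commutator G) →
        (∀ i, c' i ∈ commutator G) → ∀ m : M,
        act (Lam g0 w c) (act (Lam g0 w' c') m) = act (Lam g0 w' c') (act (Lam g0 w c) m) := by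
      intro w w' c c' hc hc' m
      rw [← act_mul, ← act_mul, hG _ (Lam_mem g0 _ w c hc) _ (Lam_mem g0 _ w' c' hc')]
    have key : ∀ w ∈ S, ∀ c' : κ → G, (∀ i, c' i ∈ commutator G) →
        act (Lam g0 w c') (u w) = act (Lam g0 w1 c') (u w) := by
      intro w hw c' hc'
      have h1 := ih (fun a ha b hb => hS a (Finset.mem_insert_of_mem ha) b
        (Finset.mem_insert_of_mem hb))
        (fun w => act (Lam g0 w c') (u w) - act (Lam g0 w1 c') (u w)) ?_ w hw
      · exact sub_eq_zero.1 h1
      · intro c hc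
        have h2 := hsum (fun i => c i * c' i) (fun i => Subgroup.mul_mem _ (hc i) (hc' i))
        have h3 := congrArg (act (Lam g0 w1 c')) (hsum c hc)
        rw [map_sum, map_zero] at h3
        have h4 : ∑ w ∈ insert w1 S, act (Lam g0 w c)
            (act (Lam g0 w c') (u w) - act (Lam g0 w1 c') (u w)) = 0 := by
          have h5 : ∀ w ∈ insert w1 S, act (Lam g0 w c)
            (act (Lam g0 w c') (u w) - act (Lam g0 w1 c') (u w)) =
            act (Lam g0 w (fun i => c i * c' i)) (u w) -
              act (Lam g0 w1 c') (act (Lam g0 w c) (u w)) := by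
            intro w _
            rw [map_sub, Lam_mul_right hG g0 w c c' hc hc', act_mul, hcomm w w1 c c' hc hc']
          rw [Finset.sum_congr rfl h5, Finset.sum_sub_distrib, h2, h3, sub_zero]
        rw [Finset.sum_insert hw1, sub_self, map_zero, zero_add] at h4
        exact h4
    have hS0 : ∀ w ∈ S, u w = 0 := by
      intro w hw
      let P : AddSubgroup M :=
        { carrier := {x | ∀ c' : κ → G, (∀ i, c' i ∈ commutator G) →
            act (Lam g0 w c') x = act (Lam g0 w1 c') x}
          zero_mem' := by intro c' _; rw [map_zero, map_zero]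
          add_mem' := by
            intro a b ha hb c' hc'
            rw [map_add, map_add, ha c' hc', hb c' hc']
          neg_mem' := by
            intro a ha c' hc'
            rw [map_neg, map_neg, ha c' hc'] }
      have hP : ∀ (h : G), ∀ x ∈ P, act h x ∈ P := by
        intro h x hx c' hc'
        have hN : (commutator G).Normal := inferInstance
        have hc'' : ∀ i, h⁻¹ * c' i * h ∈ commutator G := by
          intro i
          have := hN.conj_mem _ (hc' i) h⁻¹
          simpa using this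
        have h1 := hx (fun i => h⁻¹ * c' i * h) hc''
        have h2 : ∀ v : FreeGroup κ, Lam g0 v c' = h * Lam g0 v (fun i => h⁻¹ * c' i * h) * h⁻¹ := by
          intro v
          rw [← Lam_conj hG g0 v _ hc'' h]
          congr 1
          funext i
          group
        rw [h2 w, h2 w1, act_mul, act_mul, act_mul, act_mul, act_inv_act, h1]
      let N : Submodule (MonoidAlgebra ℤ G) M :=
        { P with smul_mem' := fun r x hx => smul_mem_of_act P hP r x hx }
      rcases eq_bot_or_eq_top N with hN | hN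
      · have : u w ∈ N := key w hw
        rw [hN] at this
        exact this
      · exfalso
        apply hS w (Finset.mem_insert_of_mem hw) w1 (Finset.mem_insert_self _ _)
        · rintro rfl; exact hw1 hw
        · intro c hc m
          have h1 : act (W g0 w1 c) m ∈ N := by rw [hN]; exact Submodule.mem_top
          have h2 : act (FreeGroup.lift g0 w1) m ∈ N := by rw [hN]; exact Submodule.mem_top
          have h3 := h2 c hc
          -- act (Lam w c) (lift w1 m) = act (W w1 c) m
          rw [W_mul, W_inv, act_mul, map_mul, map_inv, act_mul]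
          apply act_injective (W g0 w c)
          rw [act_act_inv, W_eq g0 w c, act_mul, act_act_inv, h3, ← act_mul, ← W_eq]
    intro w hw
    rcases Finset.mem_insert.1 hw with rfl | hw
    · have h1 := hsum (fun _ => 1) (fun _ => Subgroup.one_mem _)
      rw [Finset.sum_insert hw1, Finset.sum_eq_zero, add_zero, Lam_triv, act_one] at h1
      · exact h1
      · intro x hx
        rw [hS0 x hx, map_zero]
    · exact hS0 w hw

open Classical in
variable (M g0) in
/-- the partial sums -/
noncomputable def PP (f : MonoidAlgebra ℤ (FreeGroup κ)) (w0 : FreeGroup κ) :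
    Module.End (MonoidAlgebra ℤ G) M :=
  f.coeff.sum fun w n => n • (twist M g0).χ (w0⁻¹ * w)

theorem PP_apply (f : MonoidAlgebra ℤ (FreeGroup κ)) (w0 : FreeGroup κ) (m : M) :
    PP M g0 f w0 m = ∑ w ∈ f.coeff.support, f.coeff w • chiKK M g0 (w0⁻¹ * w) m := by
  rw [PP, Finsupp.sum, LinearMap.sum_apply]
  rfl

open Classical in
variable (M g0) in
/-- representatives of the cosets meeting the support -/
noncomputable def reps (f : MonoidAlgebra ℤ (FreeGroup κ)) : Finset (FreeGroup κ) :=
  f.coeff.support.image (fun w => (QuotientGroup.mk w : FreeGroup κ ⧸ KK M g0).out)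

omit [IsSimpleModule (MonoidAlgebra ℤ G) M] in
theorem reps_rep {f : MonoidAlgebra ℤ (FreeGroup κ)} {w : FreeGroup κ} (hw : w ∈ reps M g0 f) :
    w = (QuotientGroup.mk w : FreeGroup κ ⧸ KK M g0).out := by
  classical
  obtain ⟨v, hv, rfl⟩ := Finset.mem_image.1 hw
  rw [QuotientGroup.out_eq']

theorem expansion (f : MonoidAlgebra ℤ (FreeGroup κ)) (c : κ → G)
    (hc : ∀ i, c i ∈ commutator G) (m : M) :
    ev (fun i => c i * g0 i) f • m = ∑ w ∈ reps M g0 f, act (W g0 w c) (PP M g0 f w m) := by
  classical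
  rw [ev_smul, Finsupp.sum]
  have h1 : ∀ w' ∈ reps M g0 f, act (W g0 w' c) (PP M g0 f w' m) =
      ∑ w ∈ f.coeff.support, f.coeff w • act (W g0 w' c) (chiKK M g0 (w'⁻¹ * w) m) := by
    intro w' _
    rw [PP_apply, map_sum]
    apply Finset.sum_congr rfl
    intro w _
    rw [map_zsmul]
  rw [Finset.sum_congr rfl h1, Finset.sum_comm]
  apply Finset.sum_congr rfl
  intro w hw
  have hmem : (QuotientGroup.mk w : FreeGroup κ ⧸ KK M g0).out ∈ reps M g0 f :=
    Finset.mem_image_of_mem (fun w => (QuotientGroup.mk w : FreeGroup κ ⧸ KK M g0).out) hw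
  have hK : ((QuotientGroup.mk w : FreeGroup κ ⧸ KK M g0).out)⁻¹ * w ∈ KK M g0 := by
    rw [← QuotientGroup.eq, QuotientGroup.out_eq']
  rw [Finset.sum_eq_single _ _ (fun h => absurd hmem h)]
  · rw [chiKK_apply hK, ← hK c hc, ← act_mul, ← W_mul, mul_inv_cancel_left]
    rfl
  · intro w' hw' hne
    rw [chiKK_zero, LinearMap.zero_apply, map_zero, smul_zero]
    intro hcon
    apply hne
    rw [reps_rep hw', QuotientGroup.eq.2 hcon]

open Classical in
include hG in
theorem PS_of_law (f : MonoidAlgebra ℤ (FreeGroup κ))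
    (h : ∀ c : κ → G, (∀ i, c i ∈ commutator G) → ∀ m : M, ev (fun i => c i * g0 i) f • m = 0) :
    (twist M g0).PS f := by
  classical
  have h1 : ∀ w ∈ reps M g0 f, ∀ m, PP M g0 f w m = 0 := by
    intro w hw m
    have h2 := dedekind (g0 := g0) hG (reps M g0 f) ?_
      (fun w => act (FreeGroup.lift g0 w) (PP M g0 f w m)) ?_ w hw
    · exact act_eq_zero _ h2
    · intro a ha b hb hne hcon
      apply hne
      rw [reps_rep ha, reps_rep hb, QuotientGroup.eq.2 hcon]
    · intro c hc
      rw [← h c hc m, expansion f c hc m]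
      apply Finset.sum_congr rfl
      intro w _
      rw [W_eq, act_mul]
  intro w0
  by_cases hw0 : (QuotientGroup.mk w0 : FreeGroup κ ⧸ KK M g0).out ∈ reps M g0 f
  · have h2 : PP M g0 f (QuotientGroup.mk w0 : FreeGroup κ ⧸ KK M g0).out = 0 := by
      ext m
      exact h1 _ hw0 m
    have hK : w0⁻¹ * (QuotientGroup.mk w0 : FreeGroup κ ⧸ KK M g0).out ∈ KK M g0 := by
      rw [← QuotientGroup.eq, QuotientGroup.out_eq']
    have h3 : ∀ w : FreeGroup κ, (twist M g0).χ (w0⁻¹ * w) =
        (twist M g0).χ (w0⁻¹ * (QuotientGroup.mk w0 : FreeGroup κ ⧸ KK M g0).out) *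
        (twist M g0).χ (((QuotientGroup.mk w0 : FreeGroup κ ⧸ KK M g0).out)⁻¹ * w) := by
      intro w
      rw [← (twist M g0).χ_mul' hK]
      congr 1
      group
    rw [PP, Finsupp.sum] at h2
    rw [Finsupp.sum]
    have h4 : ∑ w ∈ f.coeff.support, f.coeff w • (twist M g0).χ (w0⁻¹ * w) =
        (twist M g0).χ (w0⁻¹ * (QuotientGroup.mk w0 : FreeGroup κ ⧸ KK M g0).out) *
        ∑ w ∈ f.coeff.support, f.coeff w •
          (twist M g0).χ (((QuotientGroup.mk w0 : FreeGroup κ ⧸ KK M g0).out)⁻¹ * w) := by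
      rw [Finset.mul_sum]
      apply Finset.sum_congr rfl
      intro w _
      rw [h3 w, mul_smul_comm]
    rw [h4, h2, mul_zero]
  · rw [Finsupp.sum]
    apply Finset.sum_eq_zero
    intro w hw
    have h3 : (twist M g0).χ (w0⁻¹ * w) = 0 := by
      apply (twist M g0).χ_zero
      intro hcon
      apply hw0
      have h4 : (QuotientGroup.mk w0 : FreeGroup κ ⧸ KK M g0) = QuotientGroup.mk w :=
        QuotientGroup.eq.2 hcon
      rw [h4]
      exact Finset.mem_image_of_mem (fun w => (QuotientGroup.mk w : FreeGroup κ ⧸ KK M g0).out) hw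
    rw [h3, smul_zero]

open Classical in
theorem zero_of_PS (f : MonoidAlgebra ℤ (FreeGroup κ)) (h : (twist M g0).PS f) (m : M) :
    ev g0 f • m = 0 := by
  have h1 := expansion f (fun _ => (1 : G)) (g0 := g0) (fun _ => Subgroup.one_mem _) m
  simp only [one_mul] at h1
  rw [h1]
  apply Finset.sum_eq_zero
  intro w _
  have h2 : PP M g0 f w = 0 := h w
  rw [h2, LinearMap.zero_apply, map_zero]

open Classical in
include hG in
theorem folner_quot : Folner (FreeGroup κ ⧸ (twist M g0).K) := by
  apply folner_of_metabelian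
  have hcom : ∀ x ∈ commutator (FreeGroup κ ⧸ KK M g0), ∃ a ∈ commutator (FreeGroup κ),
      (QuotientGroup.mk a : FreeGroup κ ⧸ KK M g0) = x := by
    intro x hx
    have h1 : (commutator (FreeGroup κ)).map (QuotientGroup.mk' (KK M g0)) =
        commutator (FreeGroup κ ⧸ KK M g0) := by
      rw [commutator_def, Subgroup.map_commutator, Subgroup.map_top_of_surjective _
        (QuotientGroup.mk'_surjective _), commutator_def]
    rw [← h1] at hx
    obtain ⟨a, ha, rfl⟩ := Subgroup.mem_map.1 hx
    exact ⟨a, ha, rfl⟩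
  have hmap : ∀ (φ : FreeGroup κ →* G), ∀ a ∈ commutator (FreeGroup κ), φ a ∈ commutator G := by
    intro φ a ha
    have h1 : (commutator (FreeGroup κ)).map φ ≤ commutator G := by
      rw [commutator_def, Subgroup.map_commutator, commutator_def]
      exact Subgroup.commutator_mono le_top le_top
    exact h1 (Subgroup.mem_map_of_mem _ ha)
  intro x hx y hy
  obtain ⟨a, ha, rfl⟩ := hcom x hx
  obtain ⟨b, hb, rfl⟩ := hcom y hy
  change (QuotientGroup.mk (a * b) : FreeGroup κ ⧸ KK M g0) = QuotientGroup.mk (b * a)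
  rw [QuotientGroup.eq]
  intro c hc m
  have h1 : W g0 ((a * b)⁻¹ * (b * a)) c = 1 := by
    have h2 := hG _ (hmap (FreeGroup.lift (fun i => c i * g0 i)) a ha) _
      (hmap (FreeGroup.lift (fun i => c i * g0 i)) b hb)
    rw [W, map_mul, map_inv, map_mul, map_mul, h2, inv_mul_cancel]
  have h3 : FreeGroup.lift g0 ((a * b)⁻¹ * (b * a)) = 1 := by
    have h2 := hG _ (hmap (FreeGroup.lift g0) a ha) _ (hmap (FreeGroup.lift g0) b hb)
    rw [map_mul, map_inv, map_mul, map_mul, h2, inv_mul_cancel]
  rw [h1, h3]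

end SimpleModule

end Pool.Agent.Helper81.Hopf
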