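import Mathlib
import Pool.Agent.Helper81.Hopf.Simple

/-!
# Hopf property: the main lemma on one-sided invertible matrices over the group ring of a free group
-/

namespace Pool.Agent.Helper81.Hopf

open Finset

variable {G κ : Type*} [Group G] {ι : Type*} [Fintype ι] [DecidableEq ι]

/-- `f` evaluates to zero on the module `M` at all tuples -/
def Law (G : Type*) [Group G] (M : Type*) [AddCommGroup M] [Module (MonoidAlgebra ℤ G) M]
    {κ : Type*} (f : MonoidAlgebra ℤ (FreeGroup κ)) : Prop :=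
  ∀ g : κ → G, ∀ m : M, ev g f • m = 0

theorem simple_case (hG : ∀ x ∈ commutator G, ∀ y ∈ commutator G, x * y = y * x)
    (M : Type*) [AddCommGroup M] [Module (MonoidAlgebra ℤ G) M]
    [IsSimpleModule (MonoidAlgebra ℤ G) M]
    (α β : Matrix ι ι (MonoidAlgebra ℤ (FreeGroup κ)))
    (h : ∀ i j, Law G M ((β * α - 1) i j)) : ∀ i j, Law G M ((α * β - 1) i j) := by
  classical
  intro i j g0 m
  apply zero_of_PS
  apply TwistData.core _ (folner_quot hG)
  intro i' j'
  apply PS_of_law hG
  intro c _ m'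
  exact h i' j' _ m'

theorem main_lemma (hG : ∀ x ∈ commutator G, ∀ y ∈ commutator G, x * y = y * x)
    (V : Type*) [AddCommGroup V] [Module (MonoidAlgebra ℤ G) V]
    (α β : Matrix ι ι (MonoidAlgebra ℤ (FreeGroup κ)))
    (h : ∀ i j, Law G V ((β * α - 1) i j)) : ∀ i j, Law G V ((α * β - 1) i j) := by
  classical
  by_contra hcon
  simp only [Law] at hcon
  push Not at hcon
  obtain ⟨i0, j0, g0, v0, hne⟩ := hcon
  let w : ι → V := fun i => ev g0 ((α * β - 1) i j0) • v0
  have hw : ∀ i, ∑ j, ev g0 ((α * β - 1) i j) • w j = - w i := by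
    intro i
    have h1 : (α * β - 1) * (α * β - 1) = α * ((β * α - 1) * β) - (α * β - 1) := by noncomm_ring
    have h2 : ∑ j, ev g0 ((α * β - 1) i j) • w j =
        ev g0 (((α * β - 1) * (α * β - 1)) i j0) • v0 := by
      rw [Matrix.mul_apply, map_sum, Finset.sum_smul]
      apply Finset.sum_congr rfl
      intro j _
      rw [map_mul, mul_smul]
    rw [h2, h1, Matrix.sub_apply, map_sub, sub_smul]
    have h3 : ev g0 ((α * ((β * α - 1) * β)) i j0) • v0 = 0 := by
      rw [Matrix.mul_apply, map_sum, Finset.sum_smul]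
      apply Finset.sum_eq_zero
      intro j _
      rw [map_mul, mul_smul, Matrix.mul_apply, map_sum, Finset.sum_smul]
      rw [Finset.sum_eq_zero, smul_zero]
      intro k _
      rw [map_mul, mul_smul]
      exact h j k g0 _
    rw [h3, zero_sub]
  let B : Submodule (MonoidAlgebra ℤ G) V := Submodule.span _ (Set.range w)
  have hfg : Module.Finite (MonoidAlgebra ℤ G) B :=
    Module.Finite.span_of_finite _ (Set.finite_range w)
  have hwB : ∀ i, w i ∈ B := fun i => Submodule.subset_span ⟨i, rfl⟩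
  have hBne : (⊤ : Submodule (MonoidAlgebra ℤ G) B) ≠ ⊥ := by
    intro htop
    have : (⟨w i0, hwB i0⟩ : B) ∈ (⊥ : Submodule (MonoidAlgebra ℤ G) B) := by
      rw [← htop]; exact Submodule.mem_top
    rw [Submodule.mem_bot] at this
    exact hne (congrArg Subtype.val this)
  obtain ⟨m, hm⟩ : ∃ m : Submodule (MonoidAlgebra ℤ G) B, IsCoatom m := by
    rcases (inferInstance : IsCoatomic (Submodule (MonoidAlgebra ℤ G) B)).eq_top_or_exists_le_coatom
      ⊥ with h | ⟨m, hm, _⟩
    · exact absurd h.symm hBne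
    · exact ⟨m, hm⟩
  have hsimple : IsSimpleModule (MonoidAlgebra ℤ G) (B ⧸ m) := isSimpleModule_iff_isCoatom.2 hm
  have hlaw : ∀ i j, Law G (B ⧸ m) ((β * α - 1) i j) := by
    intro i j g x
    obtain ⟨b, rfl⟩ := Submodule.Quotient.mk_surjective m x
    rw [← Submodule.Quotient.mk_smul]
    have : ev g ((β * α - 1) i j) • b = 0 := Subtype.ext (h i j g b)
    rw [this, Submodule.Quotient.mk_zero]
  have hlaw2 := simple_case hG (B ⧸ m) α β hlaw
  have hall : ∀ i, (⟨w i, hwB i⟩ : B) ∈ m := by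
    intro i
    have h1 : ∑ j, ev g0 ((α * β - 1) i j) • (⟨w j, hwB j⟩ : B) = - ⟨w i, hwB i⟩ := by
      apply Subtype.ext
      simpa using hw i
    have h2 := congrArg (Submodule.Quotient.mk (p := m)) h1
    rw [← Submodule.mkQ_apply, map_sum] at h2
    have h3 : ∑ j, m.mkQ (ev g0 ((α * β - 1) i j) • (⟨w j, hwB j⟩ : B)) = 0 := by
      apply Finset.sum_eq_zero
      intro j _
      rw [map_smul]
      exact hlaw2 i j g0 _
    rw [h3] at h2
    have h4 : -(⟨w i, hwB i⟩ : B) ∈ m := (Submodule.Quotient.mk_eq_zero m).1 h2.symm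
    exact (Submodule.neg_mem_iff m).1 h4
  apply hm.1
  rw [eq_top_iff]
  rintro ⟨x, hx⟩ -
  have h5 : B ≤ m.map B.subtype := by
    apply Submodule.span_le.2
    rintro _ ⟨i, rfl⟩
    exact Submodule.mem_map.2 ⟨_, hall i, rfl⟩
  obtain ⟨y, hy, hyx⟩ := Submodule.mem_map.1 (h5 hx)
  have : y = ⟨x, hx⟩ := Subtype.ext hyx
  rw [← this]; exact hy

end Pool.Agent.Helper81.Hopf
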