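import Mathlib
import Pool.Agent.Helper81.Hopf.MainLemma

/-!
# Hopf property: from the main lemma to groups, one abelian layer at a time
-/

namespace Pool.Agent.Helper81.Hopf

open Finset

section Abstract

variable {H G κ V : Type*} [Group H] [Group G] [AddCommGroup V] [Module (MonoidAlgebra ℤ G) V]

/-- Fox derivatives, in the form in which they act on an abelian normal subgroup -/
theorem fox [Fintype κ] [DecidableEq κ] (π : H →* G) (inc : V → H)
    (hadd : ∀ a b, inc (a + b) = inc a * inc b)
    (hact : ∀ (h : H) (v : V), inc (act (π h) v) = h * inc v * h⁻¹) (w : FreeGroup κ) :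
    ∃ d : κ → MonoidAlgebra ℤ (FreeGroup κ), ∀ (h : κ → H) (a : κ → V),
      FreeGroup.lift (fun i => inc (a i) * h i) w =
        inc (∑ j, ev (fun i => π (h i)) (d j) • a j) * FreeGroup.lift h w := by
  have hzero : inc 0 = 1 := by
    have := hadd 0 0
    rw [add_zero] at this
    exact (mul_eq_left.1 this.symm)
  have hneg : ∀ a, inc (-a) = (inc a)⁻¹ := by
    intro a
    have := hadd (-a) a
    rw [neg_add_cancel, hzero] at this
    exact eq_inv_of_mul_eq_one_left this.symm
  have hlift : ∀ (h : κ → H) (w : FreeGroup κ),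
      FreeGroup.lift (fun i => π (h i)) w = π (FreeGroup.lift h w) := by
    intro h w
    have : FreeGroup.lift (fun i => π (h i)) = π.comp (FreeGroup.lift h) := by
      ext i
      simp
    rw [this]; rfl
  induction w using FreeGroup.induction_on with
  | C1 =>
    refine ⟨fun _ => 0, fun h a => ?_⟩
    simp only [map_zero, zero_smul, Finset.sum_const_zero, map_one, mul_one, hzero]
  | of i =>
    refine ⟨fun j => if j = i then 1 else 0, fun h a => ?_⟩
    rw [FreeGroup.lift_apply_of, FreeGroup.lift_apply_of, Finset.sum_eq_single i]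
    · beta_reduce
      rw [if_pos rfl, map_one, one_smul]
    · intro j _ hj
      beta_reduce
      rw [if_neg hj, map_zero, zero_smul]
    · intro h; exact absurd (Finset.mem_univ _) h
  | inv_of i _ =>
    refine ⟨fun j => if j = i then - MonoidAlgebra.of ℤ _ (FreeGroup.of i)⁻¹ else 0,
      fun h a => ?_⟩
    have e1 : FreeGroup.lift (fun i => inc (a i) * h i) (FreeGroup.of i)⁻¹ =
        (inc (a i) * h i)⁻¹ := by
      rw [map_inv, FreeGroup.lift_apply_of]
    have e2 : FreeGroup.lift h (FreeGroup.of i)⁻¹ = (h i)⁻¹ := by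
      rw [map_inv, FreeGroup.lift_apply_of]
    have e3 : FreeGroup.lift (fun i => π (h i)) (FreeGroup.of i)⁻¹ = π (h i)⁻¹ := by
      rw [map_inv, FreeGroup.lift_apply_of, map_inv]
    rw [e1, e2, Finset.sum_eq_single i]
    · beta_reduce
      rw [if_pos rfl, map_neg, neg_smul, hneg, ev_of, ← act_def, e3, hact]
      group
    · intro j _ hj
      beta_reduce
      rw [if_neg hj, map_zero, zero_smul]
    · intro h; exact absurd (Finset.mem_univ _) h
  | mul x y hx hy =>
    obtain ⟨dx, hdx⟩ := hx
    obtain ⟨dy, hdy⟩ := hy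
    refine ⟨fun j => dx j + MonoidAlgebra.of ℤ _ x * dy j, fun h a => ?_⟩
    rw [map_mul, map_mul, hdx, hdy]
    have h1 : ∑ j, ev (fun i => π (h i)) (dx j + MonoidAlgebra.of ℤ _ x * dy j) • a j =
        ∑ j, ev (fun i => π (h i)) (dx j) • a j +
        act (π (FreeGroup.lift h x)) (∑ j, ev (fun i => π (h i)) (dy j) • a j) := by
      rw [map_sum, ← Finset.sum_add_distrib]
      apply Finset.sum_congr rfl
      intro j _
      rw [map_add, map_mul, add_smul, mul_smul, ev_of, ← act_def, hlift]
    rw [h1, hadd, hact]
    group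

/-- substitution of words in group ring elements -/
noncomputable def subst (u : κ → FreeGroup κ) :
    MonoidAlgebra ℤ (FreeGroup κ) →+* MonoidAlgebra ℤ (FreeGroup κ) :=
  MonoidAlgebra.mapDomainRingHom ℤ (FreeGroup.lift u)

theorem ev_subst (u : κ → FreeGroup κ) (g : κ → G) (f : MonoidAlgebra ℤ (FreeGroup κ)) :
    ev g (subst u f) = ev (fun i => FreeGroup.lift g (u i)) f := by
  have h1 : (FreeGroup.lift g).comp (FreeGroup.lift u) =
      FreeGroup.lift (fun i => FreeGroup.lift g (u i)) := by
    ext i
    simp
  rw [ev, ev, subst, ← h1, MonoidAlgebra.mapDomainRingHom_comp]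
  rfl

/-- The layer lemma, abstract form. -/
theorem layer [Finite κ] (hG : ∀ x ∈ commutator G, ∀ y ∈ commutator G, x * y = y * x)
    (π : H →* G) (hπ : Function.Surjective π) (inc : V → H) (hinj : Function.Injective inc)
    (hadd : ∀ a b, inc (a + b) = inc a * inc b)
    (hact : ∀ (h : H) (v : V), inc (act (π h) v) = h * inc v * h⁻¹)
    (u v : κ → FreeGroup κ)
    (hvu : ∀ (h : κ → H) (i : κ), FreeGroup.lift (fun j => FreeGroup.lift h (u j)) (v i) = h i)
    (hmod : ∀ (h : κ → H) (i : κ), ∃ a : V,
      FreeGroup.lift (fun j => FreeGroup.lift h (v j)) (u i) = inc a * h i) :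
    ∀ (h : κ → H) (i : κ), FreeGroup.lift (fun j => FreeGroup.lift h (v j)) (u i) = h i := by
  classical
  have _ := Fintype.ofFinite κ
  have hzero : inc 0 = 1 := by
    have := hadd 0 0
    rw [add_zero] at this
    exact (mul_eq_left.1 this.symm)
  have hlift : ∀ (h : κ → H) (w : FreeGroup κ),
      FreeGroup.lift (fun i => π (h i)) w = π (FreeGroup.lift h w) := by
    intro h w
    have : FreeGroup.lift (fun i => π (h i)) = π.comp (FreeGroup.lift h) := by
      ext i
      simp
    rw [this]; rfl
  choose du hdu using fun i => fox π inc hadd hact (u i)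
  choose dv hdv using fun i => fox π inc hadd hact (v i)
  let α : Matrix κ κ (MonoidAlgebra ℤ (FreeGroup κ)) := Matrix.of du
  let β : Matrix κ κ (MonoidAlgebra ℤ (FreeGroup κ)) := Matrix.of (fun i j => subst u (dv i j))
  have hβ : ∀ (h : κ → H) (i j : κ), ev (fun i => π (h i)) (β i j) =
      ev (fun k => π (FreeGroup.lift h (u k))) (dv i j) := by
    intro h i j
    change ev _ (subst u (dv i j)) = _
    rw [ev_subst]
    congr 2
    funext k
    exact hlift h (u k)
  -- the law `β α = 1`
  have hlaw1 : ∀ (h : κ → H) (a : κ → V) (i : κ), ∑ j, ev (fun i => π (h i)) (β i j) •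
      (∑ k, ev (fun i => π (h i)) (α j k) • a k) = a i := by
    intro h a i
    have h1 := hvu (fun j => inc (a j) * h j) i
    have h2 : (fun j => FreeGroup.lift (fun i => inc (a i) * h i) (u j)) = fun j =>
        inc (∑ k, ev (fun i => π (h i)) (α j k) • a k) * FreeGroup.lift h (u j) := by
      funext j
      exact hdu j h a
    rw [h2, hdv i (fun j => FreeGroup.lift h (u j)), hvu h i] at h1
    have h3 := hinj (mul_right_cancel h1)
    rw [← h3]
    apply Finset.sum_congr rfl
    intro j _
    rw [hβ]
  have hlaw2 : ∀ i j, Law G V ((β * α - 1) i j) := by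
    intro i k g m
    choose h hh using fun i => hπ (g i)
    have hg : g = fun i => π (h i) := funext fun i => (hh i).symm
    rw [hg]
    have h1 := hlaw1 h (Pi.single k m) i
    have h2 : ∀ j, ∑ k', ev (fun i => π (h i)) (α j k') • (Pi.single k m : κ → V) k' =
        ev (fun i => π (h i)) (α j k) • m := by
      intro j
      rw [Finset.sum_eq_single k]
      · rw [Pi.single_eq_same]
      · intro k' _ hk'
        rw [Pi.single_eq_of_ne hk', smul_zero]
      · intro h; exact absurd (Finset.mem_univ _) h
    simp only [h2] at h1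
    rw [Matrix.sub_apply, map_sub, sub_smul, Matrix.mul_apply, map_sum, Finset.sum_smul]
    have h3 : ∑ j, ev (fun i => π (h i)) (β i j * α j k) • m = (Pi.single k m : κ → V) i := by
      rw [← h1]
      apply Finset.sum_congr rfl
      intro j _
      rw [map_mul, mul_smul]
    rw [h3]
    by_cases hik : i = k
    · subst hik
      rw [Pi.single_eq_same, Matrix.one_apply_eq, map_one, one_smul, sub_self]
    · rw [Pi.single_eq_of_ne hik, Matrix.one_apply_ne hik, map_zero, zero_smul, sub_self]
  have hlaw3 := main_lemma hG V α β hlaw2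
  intro h
  choose a ha using hmod h
  -- the derivative of `v` depends only on the tuple modulo the layer
  have hdep : ∀ (b : κ → V) (i : κ), ∑ j, ev (fun i => π (h i)) (dv i j) • b j =
      ∑ j, ev (fun i => π (inc (a i) * h i)) (dv i j) • b j := by
    intro b i
    have h1 := hdv i h (fun j => b j + a j)
    have h2 := hdv i (fun j => inc (a j) * h j) b
    have h3 := hdv i h a
    have h4 : (fun j => inc (b j + a j) * h j) = fun j => inc (b j) * (inc (a j) * h j) := by
      funext j
      rw [hadd, mul_assoc]
    rw [h4, h2, h3, ← mul_assoc, ← hadd] at h1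
    have h5 := hinj (mul_right_cancel h1)
    have h6 : ∑ j, ev (fun i => π (h i)) (dv i j) • (b j + a j) =
        ∑ j, ev (fun i => π (h i)) (dv i j) • b j + ∑ j, ev (fun i => π (h i)) (dv i j) • a j := by
      rw [← Finset.sum_add_distrib]
      apply Finset.sum_congr rfl
      intro j _
      rw [smul_add]
    rw [h6] at h5
    exact (add_right_cancel h5).symm
  -- `β` kills `a` at the tuple `V(h)`
  have hkill : ∀ i, ∑ j, ev (fun i => π (FreeGroup.lift h (v i))) (β i j) • a j = 0 := by
    intro i
    have h1 := hvu (fun j => FreeGroup.lift h (v j)) i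
    have h2 : (fun j => FreeGroup.lift (fun j => FreeGroup.lift h (v j)) (u j)) =
        fun j => inc (a j) * h j := funext ha
    rw [h2, hdv i h a] at h1
    have h3 : inc (∑ j, ev (fun i => π (h i)) (dv i j) • a j) = inc 0 := by
      rw [hzero]
      exact mul_eq_right.1 h1
    have h4 := hinj h3
    rw [← h4, hdep a i]
    apply Finset.sum_congr rfl
    intro j _
    rw [hβ]
    congr 3
    funext k
    rw [ha k]
  have hzero' : ∀ i, a i = 0 := by
    intro i
    let g : κ → G := fun i => π (FreeGroup.lift h (v i))
    have h1 : ∑ k, ev g ((α * β - 1) i k) • a k = 0 := by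
      apply Finset.sum_eq_zero
      intro k _
      exact hlaw3 i k g (a k)
    have h2 : ∑ k, ev g ((α * β - 1) i k) • a k =
        ∑ j, ev g (α i j) • (∑ k, ev g (β j k) • a k) - a i := by
      have h3 : ∀ k, ev g ((α * β - 1) i k) • a k =
          ∑ j, ev g (α i j) • (ev g (β j k) • a k) - ev g ((1 : Matrix κ κ _) i k) • a k := by
        intro k
        rw [Matrix.sub_apply, map_sub, sub_smul, Matrix.mul_apply, map_sum, Finset.sum_smul]
        congr 1
        apply Finset.sum_congr rfl
        intro j _
        rw [map_mul, mul_smul]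
      rw [Finset.sum_congr rfl (fun k _ => h3 k), Finset.sum_sub_distrib, Finset.sum_comm]
      congr 1
      · apply Finset.sum_congr rfl
        intro j _
        rw [Finset.smul_sum]
      · rw [Finset.sum_eq_single i]
        · rw [Matrix.one_apply_eq, map_one, one_smul]
        · intro k _ hk
          rw [Matrix.one_apply_ne hk.symm, map_zero, zero_smul]
        · intro h; exact absurd (Finset.mem_univ _) h
    rw [h1] at h2
    have h4 : ∑ j, ev g (α i j) • (∑ k, ev g (β j k) • a k) = 0 := by
      apply Finset.sum_eq_zero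
      intro j _
      rw [hkill j, smul_zero]
    rw [h4, zero_sub] at h2
    exact (neg_eq_zero.1 h2.symm)
  intro i
  rw [ha i, hzero' i, hzero, one_mul]

end Abstract

end Pool.Agent.Helper81.Hopf
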