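import Mathlib
import Pool.Agent.Helper81.Hopf.Layers

/-!
# Hopf property: relatively free groups whose second derived subgroup is residually nilpotent
-/

namespace Pool.Agent.Helper81.Hopf

theorem metabelian_quot {H : Type*} [Group H] :
    ∀ x ∈ commutator (H ⧸ derivedSeries H 2), ∀ y ∈ commutator (H ⧸ derivedSeries H 2),
      x * y = y * x := by
  have h1 : derivedSeries (H ⧸ derivedSeries H 2) 2 = ⊥ := by
    rw [← map_derivedSeries_eq (f := QuotientGroup.mk' (derivedSeries H 2))
      (QuotientGroup.mk'_surjective _)]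
    rw [Subgroup.map_eq_bot_iff, QuotientGroup.ker_mk']
  have h2 : ⁅commutator (H ⧸ derivedSeries H 2), commutator (H ⧸ derivedSeries H 2)⁆ = ⊥ := h1
  rw [Subgroup.commutator_eq_bot_iff_le_centralizer] at h2
  intro x hx y hy
  exact (Subgroup.mem_centralizer_iff.1 (h2 hy) x hx)

/-- The layer lemma for an abelian normal subgroup. -/
theorem layer_abelian {H κ : Type*} [Group H] [Finite κ] (A : Subgroup H) [hA : A.Normal]
    (hab : ∀ a ∈ A, ∀ b ∈ A, a * b = b * a)
    (hcent : ∀ s ∈ derivedSeries H 2, ∀ a ∈ A, s * a = a * s)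
    (u v : κ → FreeGroup κ)
    (hvu : ∀ (h : κ → H) (i : κ), FreeGroup.lift (fun j => FreeGroup.lift h (u j)) (v i) = h i)
    (hmod : ∀ (h : κ → H) (i : κ),
      FreeGroup.lift (fun j => FreeGroup.lift h (v j)) (u i) * (h i)⁻¹ ∈ A) :
    ∀ (h : κ → H) (i : κ), FreeGroup.lift (fun j => FreeGroup.lift h (v j)) (u i) = h i := by
  let iA : AddCommGroup (Additive A) :=
    { (inferInstance : AddGroup (Additive A)) with
      add_comm := fun a b => by
        apply Additive.toMul.injective
        exact Subtype.ext (hab _ (Additive.toMul a).2 _ (Additive.toMul b).2) }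
  let conj : H →* AddMonoid.End (Additive A) :=
    { toFun := fun h =>
        { toFun := fun a => Additive.ofMul ⟨h * (Additive.toMul a : A) * h⁻¹,
            hA.conj_mem _ (Additive.toMul a).2 h⟩
          map_zero' := by
            apply Additive.toMul.injective
            apply Subtype.ext
            change h * 1 * h⁻¹ = 1
            group
          map_add' := fun a b => by
            apply Additive.toMul.injective
            apply Subtype.ext
            change h * ((Additive.toMul a : A) * (Additive.toMul b : A) : H) * h⁻¹ =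
              (h * (Additive.toMul a : A) * h⁻¹) * (h * (Additive.toMul b : A) * h⁻¹)
            group }
      map_one' := by
        ext a
        change (1 : H) * (Additive.toMul a : A) * (1 : H)⁻¹ = (Additive.toMul a : A)
        group
      map_mul' := fun h k => by
        ext a
        change (h * k) * (Additive.toMul a : A) * (h * k)⁻¹ =
          h * (k * (Additive.toMul a : A) * k⁻¹) * h⁻¹
        group }
  have hker : ∀ s ∈ derivedSeries H 2, conj s = 1 := by
    intro s hs
    ext a
    change s * (Additive.toMul a : A) * s⁻¹ = (Additive.toMul a : A)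
    rw [hcent s hs _ (Additive.toMul a).2, mul_inv_cancel_right]
  let φ : H ⧸ derivedSeries H 2 →* AddMonoid.End (Additive A) :=
    QuotientGroup.lift (derivedSeries H 2) conj hker
  let iM : Module (MonoidAlgebra ℤ (H ⧸ derivedSeries H 2)) (Additive A) :=
    Module.compHom (Additive A)
      (MonoidAlgebra.lift ℤ (AddMonoid.End (Additive A)) (H ⧸ derivedSeries H 2) φ).toRingHom
  have hact : ∀ (h : H) (a : Additive A),
      ((Additive.toMul (act (QuotientGroup.mk' (derivedSeries H 2) h) a) : A) : H) =
        h * (Additive.toMul a : A) * h⁻¹ := by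
    intro h a
    have h1 : act (QuotientGroup.mk' (derivedSeries H 2) h) a = conj h a := by
      change (MonoidAlgebra.lift ℤ (AddMonoid.End (Additive A)) (H ⧸ derivedSeries H 2) φ)
        (MonoidAlgebra.of ℤ _ (QuotientGroup.mk' (derivedSeries H 2) h)) a = conj h a
      rw [MonoidAlgebra.lift_of]
      rfl
    rw [h1]
    rfl
  refine layer metabelian_quot (QuotientGroup.mk' (derivedSeries H 2))
    (QuotientGroup.mk'_surjective _) (fun a : Additive A => ((Additive.toMul a : A) : H))
    ?_ ?_ hact u v hvu ?_
  · intro a b hab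
    apply Additive.toMul.injective
    exact Subtype.ext hab
  · intro a b
    rfl
  · intro h i
    refine ⟨Additive.ofMul ⟨_, hmod h i⟩, ?_⟩
    change _ = (FreeGroup.lift (fun j => FreeGroup.lift h (v j)) (u i) * (h i)⁻¹) * h i
    rw [inv_mul_cancel_right]

theorem lift_hom {H K κ : Type*} [Group H] [Group K] (π : H →* K) (h : κ → H) (w : FreeGroup κ) :
    FreeGroup.lift (fun i => π (h i)) w = π (FreeGroup.lift h w) := by
  have : FreeGroup.lift (fun i => π (h i)) = π.comp (FreeGroup.lift h) := by
    ext i
    simp
  rw [this]; rfl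

/-- One step down. -/
theorem step {H κ : Type*} [Group H] [Finite κ] (N M : Subgroup H) [hN : N.Normal] [hM : M.Normal]
    (h1 : ⁅N, N⁆ ≤ M) (h2 : ⁅derivedSeries H 2, N⁆ ≤ M) (u v : κ → FreeGroup κ)
    (hvu : ∀ (h : κ → H) (i : κ), FreeGroup.lift (fun j => FreeGroup.lift h (u j)) (v i) = h i)
    (hmod : ∀ (h : κ → H) (i : κ),
      FreeGroup.lift (fun j => FreeGroup.lift h (v j)) (u i) * (h i)⁻¹ ∈ N) :
    ∀ (h : κ → H) (i : κ),
      FreeGroup.lift (fun j => FreeGroup.lift h (v j)) (u i) * (h i)⁻¹ ∈ M := by
  have hsurj := QuotientGroup.mk'_surjective M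
  have hcomm : ∀ a b : H, a * b * a⁻¹ * b⁻¹ ∈ M →
      QuotientGroup.mk' M a * QuotientGroup.mk' M b = QuotientGroup.mk' M b * QuotientGroup.mk' M a := by
    intro a b hab
    have h3 : QuotientGroup.mk' M (a * b * a⁻¹ * b⁻¹) = 1 := (QuotientGroup.eq_one_iff _).2 hab
    rw [map_mul, map_mul, map_mul, map_inv, map_inv] at h3
    rw [mul_inv_eq_one, mul_inv_eq_iff_eq_mul] at h3
    exact h3
  have hNN : (N.map (QuotientGroup.mk' M)).Normal := hN.map _ hsurj
  have hq := layer_abelian (κ := κ) (N.map (QuotientGroup.mk' M)) ?_ ?_ u v ?_ ?_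
  · intro h i
    have h3 := hq (fun i => QuotientGroup.mk' M (h i)) i
    have h4 : (fun j => FreeGroup.lift (fun i => QuotientGroup.mk' M (h i)) (v j)) =
        fun j => QuotientGroup.mk' M (FreeGroup.lift h (v j)) := by
      funext j
      exact lift_hom _ h (v j)
    rw [h4, lift_hom] at h3
    rw [← QuotientGroup.eq_one_iff]
    change QuotientGroup.mk' M _ = 1
    rw [map_mul, map_inv, h3, mul_inv_cancel]
  · rintro _ ⟨a, ha, rfl⟩ _ ⟨b, hb, rfl⟩
    apply hcomm
    rw [← commutatorElement_def]
    exact h1 (Subgroup.commutator_mem_commutator ha hb)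
  · rw [← map_derivedSeries_eq hsurj 2]
    rintro _ ⟨a, ha, rfl⟩ _ ⟨b, hb, rfl⟩
    apply hcomm
    rw [← commutatorElement_def]
    exact h2 (Subgroup.commutator_mem_commutator ha hb)
  · intro h i
    choose k hk using fun i => hsurj (h i)
    have hk' : h = fun i => QuotientGroup.mk' M (k i) := funext fun i => (hk i).symm
    have h4 : (fun j => FreeGroup.lift (fun i => QuotientGroup.mk' M (k i)) (u j)) =
        fun j => QuotientGroup.mk' M (FreeGroup.lift k (u j)) := by
      funext j
      exact lift_hom _ k (u j)
    rw [hk', h4, lift_hom, hvu]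
  · intro h i
    choose k hk using fun i => hsurj (h i)
    have hk' : h = fun i => QuotientGroup.mk' M (k i) := funext fun i => (hk i).symm
    have h4 : (fun j => FreeGroup.lift (fun i => QuotientGroup.mk' M (k i)) (v j)) =
        fun j => QuotientGroup.mk' M (FreeGroup.lift k (v j)) := by
      funext j
      exact lift_hom _ k (v j)
    rw [hk', h4, lift_hom]
    exact ⟨_, hmod k i, by rw [map_mul, map_inv]⟩

/-- Words with a one-sided inverse, as word maps of a group whose second derived subgroup is
residually nilpotent, are inverse to each other. -/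
theorem word_maps {H κ : Type*} [Group H] [Finite κ]
    (hres : ⨅ k, (derivedSeries H 2).lowerCentralSeries k = ⊥) (u v : κ → FreeGroup κ)
    (hvu : ∀ (h : κ → H) (i : κ), FreeGroup.lift (fun j => FreeGroup.lift h (u j)) (v i) = h i) :
    ∀ (h : κ → H) (i : κ), FreeGroup.lift (fun j => FreeGroup.lift h (v j)) (u i) = h i := by
  have n1 : (derivedSeries H 1).Normal := derivedSeries_normal H 1
  have n2 : (derivedSeries H 2).Normal := derivedSeries_normal H 2
  have hle : ∀ k, (derivedSeries H 2).lowerCentralSeries k ≤ derivedSeries H 2 := by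
    intro k
    induction k with
    | zero => exact le_rfl
    | succ k ih =>
      rw [Subgroup.lowerCentralSeries_succ]
      exact (Subgroup.commutator_mono ih le_rfl).trans (Subgroup.commutator_le_self _)
  have hnorm : ∀ k, ((derivedSeries H 2).lowerCentralSeries k).Normal := by
    intro k
    induction k with
    | zero => exact n2
    | succ k ih =>
      rw [Subgroup.lowerCentralSeries_succ]
      exact Subgroup.commutator_normal _ _
  have p1 := step (κ := κ) (⊤ : Subgroup H) (derivedSeries H 1) le_rfl
    (Subgroup.commutator_mono le_top le_rfl) u v hvu (fun _ _ => Subgroup.mem_top _)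
  have p2 := step (derivedSeries H 1) (derivedSeries H 2) le_rfl
    (Subgroup.commutator_mono (derivedSeries_antitone H (by norm_num)) le_rfl) u v hvu p1
  have p3 : ∀ k, ∀ (h : κ → H) (i : κ),
      FreeGroup.lift (fun j => FreeGroup.lift h (v j)) (u i) * (h i)⁻¹ ∈
        (derivedSeries H 2).lowerCentralSeries k := by
    intro k
    induction k with
    | zero => exact p2
    | succ k ih =>
      refine @step H κ _ _ _ _ (hnorm k) (hnorm (k + 1)) ?_ ?_ u v hvu ih
      · rw [Subgroup.lowerCentralSeries_succ]
        exact Subgroup.commutator_mono le_rfl (hle k)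
      · rw [Subgroup.lowerCentralSeries_succ, Subgroup.commutator_comm]
  intro h i
  have h1 : FreeGroup.lift (fun j => FreeGroup.lift h (v j)) (u i) * (h i)⁻¹ ∈ (⊥ : Subgroup H) := by
    rw [← hres, Subgroup.mem_iInf]
    exact fun k => p3 k h i
  rw [Subgroup.mem_bot, mul_inv_eq_one] at h1
  exact h1

/-- Relatively free groups whose second derived subgroup is residually nilpotent are Hopfian. -/
theorem hopf_relfree (L : Set (FreeGroup ℕ)) (n : ℕ)
    (hres : ⨅ k, (derivedSeries (FreeGroup (Fin n) ⧸ Subgroup.normalClosure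
      {x : FreeGroup (Fin n) | ∃ w ∈ L, ∃ φ : FreeGroup ℕ →* FreeGroup (Fin n), φ w = x})
      2).lowerCentralSeries k = ⊥)
    (f : (FreeGroup (Fin n) ⧸ Subgroup.normalClosure
      {x : FreeGroup (Fin n) | ∃ w ∈ L, ∃ φ : FreeGroup ℕ →* FreeGroup (Fin n), φ w = x}) →*
      (FreeGroup (Fin n) ⧸ Subgroup.normalClosure
      {x : FreeGroup (Fin n) | ∃ w ∈ L, ∃ φ : FreeGroup ℕ →* FreeGroup (Fin n), φ w = x}))
    (hf : Function.Surjective f) : Function.Injective f := by
  set N := Subgroup.normalClosure
    {x : FreeGroup (Fin n) | ∃ w ∈ L, ∃ φ : FreeGroup ℕ →* FreeGroup (Fin n), φ w = x} with hNdef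
  let q : FreeGroup (Fin n) →* FreeGroup (Fin n) ⧸ N := QuotientGroup.mk' N
  have hq : Function.Surjective q := QuotientGroup.mk'_surjective N
  let x : Fin n → FreeGroup (Fin n) ⧸ N := fun i => q (FreeGroup.of i)
  have hlx : ∀ w, FreeGroup.lift x w = q w := by
    intro w
    have : FreeGroup.lift x = q := by
      ext i
      simp [x]
    rw [this]
  -- endomorphisms
  have hend : ∀ h : Fin n → FreeGroup (Fin n) ⧸ N, ∃ θ : FreeGroup (Fin n) ⧸ N →*
      FreeGroup (Fin n) ⧸ N, ∀ w, θ (q w) = FreeGroup.lift h w := by
    intro h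
    choose r hr using fun i => hq (h i)
    have hh : h = fun i => q (r i) := funext fun i => (hr i).symm
    have hker : N ≤ (FreeGroup.lift h).ker := by
      refine Subgroup.normalClosure_le_normal ?_
      rintro _ ⟨w, hw, φ, rfl⟩
      change FreeGroup.lift h (φ w) = 1
      rw [hh, lift_hom q r]
      apply (QuotientGroup.eq_one_iff _).2
      apply Subgroup.subset_normalClosure
      exact ⟨w, hw, (FreeGroup.lift r).comp φ, rfl⟩
    exact ⟨QuotientGroup.lift N (FreeGroup.lift h) hker, fun w => rfl⟩
  choose u hu using fun i => hq (f (x i))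
  choose y hy using fun i => hf (x i)
  choose v hv using fun i => hq (y i)
  have hvu : ∀ (h : Fin n → FreeGroup (Fin n) ⧸ N) (i : Fin n),
      FreeGroup.lift (fun j => FreeGroup.lift h (u j)) (v i) = h i := by
    intro h i
    obtain ⟨θ, hθ⟩ := hend h
    have h1 : FreeGroup.lift (fun j => FreeGroup.lift x (u j)) (v i) = x i := by
      have h2 : (fun j => FreeGroup.lift x (u j)) = fun j => f (x j) := by
        funext j
        rw [hlx, hu]
      rw [h2, lift_hom, hlx, hv, hy]
    have h3 := congrArg θ h1
    rw [← lift_hom] at h3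
    have h4 : (fun j => θ (FreeGroup.lift x (u j))) = fun j => FreeGroup.lift h (u j) := by
      funext j
      rw [hlx, hθ]
    rw [h4] at h3
    rw [h3]
    change θ (q (FreeGroup.of i)) = h i
    rw [hθ, FreeGroup.lift_apply_of]
  have huv := word_maps hres u v hvu x
  obtain ⟨θ, hθ⟩ := hend y
  have hid : ∀ z, θ (f z) = z := by
    intro z
    obtain ⟨w, rfl⟩ := hq z
    have h1 : (θ.comp f).comp q = q := by
      ext i
      change θ (f (x i)) = x i
      rw [← hu, hθ]
      have h2 := huv i
      have h3 : (fun j => FreeGroup.lift x (v j)) = y := by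
        funext j
        rw [hlx, hv]
      rw [h3] at h2
      exact h2
    exact congrArg (fun g => g w) h1
  intro a b hab
  rw [← hid a, ← hid b, hab]

end Pool.Agent.Helper81.Hopf
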